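import Mathlib

set_option autoImplicit false

namespace Pool.Agent.W9.IK

/-- A finite set with a 1-separated real labelling in `[A, B]` has at most `B - A + 1` elements. -/
lemma sep_card {α : Type*} (S : Finset α) (h : α → ℝ) (A B : ℝ) (hAB : A ≤ B)
    (hA : ∀ v ∈ S, A ≤ h v) (hB : ∀ v ∈ S, h v ≤ B)
    (hsep : ∀ v ∈ S, ∀ w ∈ S, v ≠ w → 1 ≤ |h v - h w|) : (S.card : ℝ) ≤ B - A + 1 := by
  classical
  have hinj : Set.InjOn (fun v => ⌊h v - A⌋₊) (S : Set α) := by
    intro v hv w hw hvw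
    by_contra hne
    have h1 := hsep v hv w hw hne
    simp only at hvw
    have hv0 : 0 ≤ h v - A := by linarith [hA v hv]
    have hw0 : 0 ≤ h w - A := by linarith [hA w hw]
    have a1 := Nat.floor_le hv0
    have a2 := Nat.lt_floor_add_one (h v - A)
    have a3 := Nat.floor_le hw0
    have a4 := Nat.lt_floor_add_one (h w - A)
    rw [hvw] at a1 a2
    have : |h v - h w| < 1 := by
      rw [abs_lt]; constructor <;> linarith
    linarith
  have hmap : ∀ v ∈ S, (fun v => ⌊h v - A⌋₊) v ∈ Finset.range (⌊B - A⌋₊ + 1) := by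
    intro v hv
    simp only [Finset.mem_range]
    exact Nat.lt_succ_of_le (Nat.floor_le_floor (by linarith [hB v hv]))
  have hc := Finset.card_le_card_of_injOn _ hmap hinj
  rw [Finset.card_range] at hc
  have h2 : ((⌊B - A⌋₊ : ℕ) : ℝ) ≤ B - A := Nat.floor_le (by linarith)
  have h3 : (S.card : ℝ) ≤ ((⌊B - A⌋₊ + 1 : ℕ) : ℝ) := by exact_mod_cast hc
  push_cast at h3
  linarith

/-- the determinant of two distinct primitive vectors -/
lemma det_ge {l l' : ℕ} {u u' : ℤ} (hl : 1 ≤ l) (hl' : 1 ≤ l') (hc : Int.gcd l u = 1)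
    (hc' : Int.gcd l' u' = 1) (hne : (l, u) ≠ (l', u')) :
    1 ≤ |(l : ℝ) * u' - (l' : ℝ) * u| := by
  have h : (l : ℤ) * u' - (l' : ℤ) * u ≠ 0 := by
    intro h0
    apply hne
    have h1 : (l : ℤ) * u' = l' * u := by linarith
    have c1 : IsCoprime (l : ℤ) u := Int.isCoprime_iff_gcd_eq_one.2 hc
    have c2 : IsCoprime (l' : ℤ) u' := Int.isCoprime_iff_gcd_eq_one.2 hc'
    have d1 : (l : ℤ) ∣ l' := by
      have : (l : ℤ) ∣ l' * u := ⟨u', h1.symm⟩
      exact c1.dvd_of_dvd_mul_right this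
    have d2 : (l' : ℤ) ∣ l := by
      have : (l' : ℤ) ∣ l * u' := ⟨u, h1⟩
      exact c2.dvd_of_dvd_mul_right this
    have e1 : l = l' := Nat.dvd_antisymm (by exact_mod_cast d1) (by exact_mod_cast d2)
    subst e1
    have hl0 : (l : ℤ) ≠ 0 := by positivity
    have : u' = u := mul_left_cancel₀ hl0 h1
    rw [this]
  have := Int.one_le_abs h
  exact_mod_cast this

/-- **Lemma B**: coprime pairs `(l, u)` with `l ≤ L` and `|l β - u| < ξ`. -/
lemma card_coprime_1d (β ξ : ℝ) (L : ℕ) (hξ : 0 < ξ) (S : Finset (ℕ × ℤ))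
    (hS : ∀ v ∈ S, 1 ≤ v.1 ∧ v.1 ≤ L ∧ Int.gcd v.1 v.2 = 1 ∧ |(v.1 : ℝ) * β - v.2| < ξ) :
    (S.card : ℝ) ≤ 3 + 4 * L * ξ := by
  classical
  rcases Nat.eq_zero_or_pos L with hL | hL
  · have : S = ∅ := by
      rw [Finset.eq_empty_iff_forall_notMem]
      intro v hv
      have := hS v hv
      omega
    rw [this]; simp; positivity
  have hLr : (0 : ℝ) < L := by exact_mod_cast hL
  -- slopes
  set s : ℕ × ℤ → ℝ := fun v => ((v.2 : ℝ) - v.1 * β) / v.1 with hs
  have hs1 : ∀ v ∈ S, (v.1 : ℝ) * |s v| < ξ := by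
    intro v hv
    obtain ⟨h1, h2, h3, h4⟩ := hS v hv
    have hv1 : (0 : ℝ) < v.1 := by exact_mod_cast h1
    simp only [hs]
    rw [abs_div, abs_of_pos hv1, mul_div_cancel₀ _ hv1.ne', abs_sub_comm]
    exact h4
  have hdet : ∀ v ∈ S, ∀ w ∈ S, v ≠ w → 1 ≤ (v.1 : ℝ) * w.1 * |s v - s w| := by
    intro v hv w hw hne
    obtain ⟨h1, h2, h3, h4⟩ := hS v hv
    obtain ⟨g1, g2, g3, g4⟩ := hS w hw
    have hv1 : (0 : ℝ) < v.1 := by exact_mod_cast h1
    have hw1 : (0 : ℝ) < w.1 := by exact_mod_cast g1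
    have hd := det_ge h1 g1 h3 g3 (by simpa using hne)
    have : (v.1 : ℝ) * w.1 * |s v - s w| = |(v.1 : ℝ) * w.2 - (w.1 : ℝ) * v.2| := by
      have e : (v.1 : ℝ) * w.2 - (w.1 : ℝ) * v.2 = -((v.1 : ℝ) * w.1 * (s v - s w)) := by
        simp only [hs]; field_simp; ring
      rw [e, abs_neg, abs_mul, abs_of_pos (by positivity : (0:ℝ) < (v.1 : ℝ) * w.1)]
    rw [this]
    exact hd
  set S1 := S.filter (fun v => |s v| * L ≤ ξ) with hS1
  set S2 := S.filter (fun v => ξ < s v * L) with hS2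
  set S3 := S.filter (fun v => ξ < -s v * L) with hS3
  have hcov : S ⊆ S1 ∪ (S2 ∪ S3) := by
    intro v hv
    simp only [Finset.mem_union, hS1, hS2, hS3, Finset.mem_filter, hv, true_and]
    by_cases h : |s v| * L ≤ ξ
    · left; exact h
    · right
      push Not at h
      rcases le_or_gt 0 (s v) with h0 | h0
      · left; rwa [abs_of_nonneg h0] at h
      · right; rwa [abs_of_neg h0] at h
  have c1 : (S1.card : ℝ) ≤ L * ξ - (-(L * ξ)) + 1 := by
    refine sep_card S1 (fun v => (L : ℝ) ^ 2 * s v) _ _ (by nlinarith) ?_ ?_ ?_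
    · intro v hv
      simp only [hS1, Finset.mem_filter] at hv
      have := hv.2
      have h2 := neg_abs_le (s v)
      nlinarith
    · intro v hv
      simp only [hS1, Finset.mem_filter] at hv
      have := hv.2
      have h2 := le_abs_self (s v)
      nlinarith
    · intro v hv w hw hne
      simp only [hS1, Finset.mem_filter] at hv hw
      have h := hdet v hv.1 w hw.1 hne
      obtain ⟨h1, h2, -⟩ := hS v hv.1
      obtain ⟨g1, g2, -⟩ := hS w hw.1
      have h2r : (v.1 : ℝ) ≤ L := by exact_mod_cast h2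
      have g2r : (w.1 : ℝ) ≤ L := by exact_mod_cast g2
      rw [← mul_sub, abs_mul, abs_of_pos (by positivity : (0:ℝ) < (L:ℝ)^2)]
      refine h.trans ?_
      gcongr
      nlinarith [Nat.cast_nonneg (α := ℝ) v.1, Nat.cast_nonneg (α := ℝ) w.1]
  have key : ∀ v ∈ S, ∀ w ∈ S, v ≠ w → s v ≠ 0 → s w ≠ 0 → 0 < s v * s w →
      1 ≤ |ξ ^ 2 / s v - ξ ^ 2 / s w| := by
    intro v hv w hw hne hv0 hw0 hpos
    have h := hdet v hv w hw hne
    have hv' := hs1 v hv
    have hw' := hs1 w hw
    have e : ξ ^ 2 / s v - ξ ^ 2 / s w = ξ ^ 2 * (s w - s v) / (s v * s w) := by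
      field_simp
    rw [e, abs_div, abs_mul, abs_of_pos hpos, abs_of_pos (by positivity : (0:ℝ) < ξ^2),
      le_div_iff₀ hpos, one_mul, abs_sub_comm]
    have h5 : (v.1 : ℝ) * w.1 * (s v * s w) ≤ ξ ^ 2 := by
      have e2 : s v * s w = |s v| * |s w| := by rw [← abs_mul, abs_of_pos hpos]
      rw [e2]
      have e3 : (v.1 : ℝ) * w.1 * (|s v| * |s w|) = ((v.1 : ℝ) * |s v|) * (w.1 * |s w|) := by ring
      rw [e3, sq]
      have p1 : 0 ≤ (v.1 : ℝ) * |s v| := by positivity
      have p2 : 0 ≤ (w.1 : ℝ) * |s w| := by positivity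
      nlinarith
    have h6 : 0 ≤ |s v - s w| := abs_nonneg _
    calc s v * s w = 1 * (s v * s w) := by ring
      _ ≤ ((v.1 : ℝ) * w.1 * |s v - s w|) * (s v * s w) := by gcongr
      _ = ((v.1 : ℝ) * w.1 * (s v * s w)) * |s v - s w| := by ring
      _ ≤ ξ ^ 2 * |s v - s w| := by gcongr
  have c2 : (S2.card : ℝ) ≤ L * ξ - 0 + 1 := by
    refine sep_card S2 (fun v => ξ ^ 2 / s v) _ _ (by positivity) ?_ ?_ ?_
    · intro v hv
      simp only [hS2, Finset.mem_filter] at hv
      have : 0 < s v := by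
        by_contra h; push Not at h; nlinarith [hv.2]
      positivity
    · intro v hv
      simp only [hS2, Finset.mem_filter] at hv
      have : 0 < s v := by
        by_contra h; push Not at h; nlinarith [hv.2]
      rw [div_le_iff₀ this]
      nlinarith [hv.2]
    · intro v hv w hw hne
      simp only [hS2, Finset.mem_filter] at hv hw
      have a : 0 < s v := by
        by_contra h; push Not at h; nlinarith [hv.2]
      have b : 0 < s w := by
        by_contra h; push Not at h; nlinarith [hw.2]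
      exact key v hv.1 w hw.1 hne a.ne' b.ne' (mul_pos a b)
  have c3 : (S3.card : ℝ) ≤ 0 - (-(L * ξ)) + 1 := by
    refine sep_card S3 (fun v => ξ ^ 2 / s v) _ _ (by nlinarith) ?_ ?_ ?_
    · intro v hv
      simp only [hS3, Finset.mem_filter] at hv
      have : s v < 0 := by
        by_contra h; push Not at h; nlinarith [hv.2]
      rw [le_div_iff_of_neg this]
      nlinarith [hv.2]
    · intro v hv
      simp only [hS3, Finset.mem_filter] at hv
      have : s v < 0 := by
        by_contra h; push Not at h; nlinarith [hv.2]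
      exact div_nonpos_of_nonneg_of_nonpos (by positivity) this.le
    · intro v hv w hw hne
      simp only [hS3, Finset.mem_filter] at hv hw
      have a : s v < 0 := by
        by_contra h; push Not at h; nlinarith [hv.2]
      have b : s w < 0 := by
        by_contra h; push Not at h; nlinarith [hw.2]
      exact key v hv.1 w hw.1 hne a.ne b.ne (mul_pos_of_neg_of_neg a b)
  have hcard : (S.card : ℝ) ≤ S1.card + (S2.card + S3.card) := by
    have h1 := (Finset.card_le_card hcov).trans (Finset.card_union_le _ _)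
    have h2 := Finset.card_union_le S2 S3
    have : S.card ≤ S1.card + (S2.card + S3.card) := by omega
    exact_mod_cast this
  linarith

end Pool.Agent.W9.IK
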