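import Mathlib
import Pool.Agent.W9.IK1

set_option autoImplicit false

namespace Pool.Agent.W9.IK

/-- the reduced first fraction of `round (w y) / w` -/
noncomputable def redp (y : ℝ) (w : ℕ) : ℕ × ℤ :=
  (w / Int.gcd w (round ((w : ℝ) * y)), round ((w : ℝ) * y) / (Int.gcd w (round ((w : ℝ) * y)) : ℤ))

lemma redp_spec (y : ℝ) (w : ℕ) (hw : 1 ≤ w) :
    ∃ l : ℕ, l = Int.gcd w (round ((w : ℝ) * y)) ∧ 1 ≤ l ∧ w = l * (redp y w).1 ∧
      round ((w : ℝ) * y) = (l : ℤ) * (redp y w).2 ∧ 1 ≤ (redp y w).1 ∧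
      Int.gcd (redp y w).1 (redp y w).2 = 1 := by
  set u := round ((w : ℝ) * y) with hu
  set l := Int.gcd w u with hl
  have hl0 : 0 < l := Int.gcd_pos_of_ne_zero_left _ (by positivity)
  have d1 : (l : ℤ) ∣ (w : ℤ) := Int.gcd_dvd_left _ _
  have d2 : (l : ℤ) ∣ u := Int.gcd_dvd_right _ _
  have d1' : l ∣ w := by exact_mod_cast d1
  refine ⟨l, rfl, hl0, ?_, ?_, ?_, ?_⟩
  · simp only [redp, ← hu, ← hl]
    exact (Nat.mul_div_cancel' d1').symm
  · simp only [redp, ← hu, ← hl]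
    exact (Int.mul_ediv_cancel' d2).symm
  · simp only [redp, ← hu, ← hl]
    exact Nat.div_pos (Nat.le_of_dvd (by omega) d1') hl0
  · simp only [redp, ← hu, ← hl]
    have h := Int.gcd_div_gcd_div_gcd (i := (w : ℤ)) (j := u) hl0
    rw [← hl] at h
    rw [Int.natCast_div]
    exact h

/-- **Lemma A**: primitive vectors `(w, u₁, u₂)` with `w ≤ W`, `|w yᵢ - uᵢ| < ξ`. -/
lemma card_prim (y1 y2 ξ : ℝ) (W : ℕ) (hξ : 0 < ξ) (hξ2 : ξ ≤ 1 / 2) (T : Finset ℕ)
    (hT : ∀ w ∈ T, 1 ≤ w ∧ w ≤ W ∧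
      (∀ g : ℕ, g ∣ w → (g : ℤ) ∣ round ((w : ℝ) * y1) → (g : ℤ) ∣ round ((w : ℝ) * y2) → g = 1) ∧
      |(w : ℝ) * y1 - round ((w : ℝ) * y1)| < ξ ∧ |(w : ℝ) * y2 - round ((w : ℝ) * y2)| < ξ) :
    (T.card : ℝ) ≤ 9 + 16 * W * ξ := by
  classical
  set P := T.image (redp y1) with hP
  have hPp : ∀ p ∈ P, 1 ≤ p.1 ∧ p.1 ≤ W ∧ Int.gcd p.1 p.2 = 1 ∧ |(p.1 : ℝ) * y1 - p.2| < ξ := by
    intro p hp
    simp only [hP, Finset.mem_image] at hp
    obtain ⟨w, hw, rfl⟩ := hp
    obtain ⟨h1, h2, h3, h4, h5⟩ := hT w hw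
    obtain ⟨l, hl, hl1, hwl, hul, hm, hg⟩ := redp_spec y1 w h1
    refine ⟨hm, ?_, hg, ?_⟩
    · refine le_trans ?_ h2
      conv_rhs => rw [hwl]
      exact Nat.le_mul_of_pos_left _ hl1
    · have hlr : (1 : ℝ) ≤ l := by exact_mod_cast hl1
      have e : (w : ℝ) * y1 - round ((w : ℝ) * y1) = l * (((redp y1 w).1 : ℝ) * y1 - (redp y1 w).2) := by
        have e1 : (w : ℝ) = (l : ℝ) * ((redp y1 w).1 : ℝ) := by exact_mod_cast hwl
        have e2 : ((round ((w : ℝ) * y1) : ℤ) : ℝ) = (l : ℝ) * ((redp y1 w).2 : ℝ) := by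
          exact_mod_cast hul
        rw [e2]
        conv_lhs => rw [e1]
        ring
      rw [e, abs_mul, abs_of_pos (by linarith : (0:ℝ) < l)] at h4
      have := abs_nonneg (((redp y1 w).1 : ℝ) * y1 - (redp y1 w).2)
      nlinarith
  have hPc := card_coprime_1d y1 ξ W hξ P hPp
  set Λ : ℕ × ℤ → Finset ℕ := fun p =>
    (Finset.Icc 1 W).filter (fun l => l * p.1 ≤ W ∧ (l : ℝ) * |(p.1 : ℝ) * y1 - p.2| < ξ) with hΛ
  -- sum of the sizes
  have hsum : ∑ p ∈ P, (Λ p).card ≤ W := by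
    rw [← Finset.card_sigma]
    have : (Finset.Icc 1 W).card = W := by simp
    conv_rhs => rw [← this]
    refine Finset.card_le_card_of_injOn (fun z => z.2 * z.1.1) ?_ ?_
    · rintro ⟨p, l⟩ hz
      simp only [Finset.coe_sigma, Set.mem_sigma_iff, Finset.mem_coe] at hz
      obtain ⟨hp, hl⟩ := hz
      simp only [hΛ, Finset.mem_filter, Finset.mem_Icc] at hl
      have := (hPp p hp).1
      simp only [Finset.coe_Icc, Set.mem_Icc]
      exact ⟨Nat.mul_pos hl.1.1 this, hl.2.1⟩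
    · rintro ⟨p, l⟩ hz ⟨p', l'⟩ hz' he
      simp only [Finset.coe_sigma, Set.mem_sigma_iff, Finset.mem_coe] at hz hz' he
      obtain ⟨hp, hl⟩ := hz
      obtain ⟨hp', hl'⟩ := hz'
      simp only [hΛ, Finset.mem_filter, Finset.mem_Icc] at hl hl'
      have q1 := hPp p hp
      have q1' := hPp p' hp'
      -- l c = l' c'
      have hlr : (0 : ℝ) < l := by exact_mod_cast hl.1.1
      have hlr' : (0 : ℝ) < l' := by exact_mod_cast hl'.1.1
      have a1 : |(l : ℝ) * p.1 * y1 - l * p.2| < ξ := by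
        have : (l : ℝ) * p.1 * y1 - l * p.2 = l * ((p.1 : ℝ) * y1 - p.2) := by ring
        rw [this, abs_mul, abs_of_pos hlr]; exact hl.2.2
      have a2 : |(l' : ℝ) * p'.1 * y1 - l' * p'.2| < ξ := by
        have : (l' : ℝ) * p'.1 * y1 - l' * p'.2 = l' * ((p'.1 : ℝ) * y1 - p'.2) := by ring
        rw [this, abs_mul, abs_of_pos hlr']; exact hl'.2.2
      have he' : (l : ℝ) * p.1 = (l' : ℝ) * p'.1 := by exact_mod_cast he
      rw [he'] at a1
      have hc : (l : ℤ) * p.2 = l' * p'.2 := by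
        have h3 : |(((l : ℤ) * p.2 - l' * p'.2 : ℤ) : ℝ)| < 1 := by
          push_cast
          rw [abs_lt] at a1 a2 ⊢
          constructor <;> linarith
        have h4 : |(l : ℤ) * p.2 - l' * p'.2| < 1 := by exact_mod_cast h3
        have := Int.abs_lt_one_iff.1 h4
        linarith
      have hpp : (p.1, p.2) = (p'.1, p'.2) := by
        by_contra hne
        have hd := det_ge q1.1 q1'.1 q1.2.2.1 q1'.2.2.1 hne
        have hc' : (l : ℝ) * p.2 = l' * p'.2 := by exact_mod_cast hc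
        have h0 : (p.1 : ℝ) * p'.2 - p'.1 * p.2 = 0 := by
          have e1 : (l : ℝ) * l' * ((p.1 : ℝ) * p'.2 - p'.1 * p.2) = 0 := by
            have : (l : ℝ) * l' * ((p.1 : ℝ) * p'.2 - p'.1 * p.2) =
              ((l : ℝ) * p.1) * (l' * p'.2) - (l' * p'.1) * (l * p.2) := by ring
            rw [this, he', hc']; ring
          rcases mul_eq_zero.1 e1 with h | h
          · exfalso; nlinarith [mul_pos hlr hlr']
          · exact h
        rw [h0] at hd
        norm_num at hd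
      have hpe : p = p' := by
        simpa using hpp
      subst hpe
      have hp0 : 0 < p.1 := q1.1
      have : l = l' := Nat.eq_of_mul_eq_mul_right hp0 he
      subst this
      rfl
  -- the fibres
  have hfib : ∀ p ∈ P, ((T.filter (fun w => redp y1 w = p)).card : ℝ) ≤ 3 + 4 * (Λ p).card * ξ := by
    intro p hp
    set g : ℕ → ℕ × ℤ := fun w => (Int.gcd w (round ((w : ℝ) * y1)), round ((w : ℝ) * y2)) with hg
    have hginj : Set.InjOn g (T.filter (fun w => redp y1 w = p) : Set ℕ) := by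
      intro w hw w' hw' he
      simp only [Finset.coe_filter, Set.mem_ofPred_eq] at hw hw'
      obtain ⟨l, hl, hl1, hwl, -⟩ := redp_spec y1 w (hT w hw.1).1
      obtain ⟨l', hl', hl1', hwl', -⟩ := redp_spec y1 w' (hT w' hw'.1).1
      simp only [hg, Prod.mk.injEq] at he
      rw [← hl, ← hl'] at he
      rw [hwl, hwl', he.1, hw.2, hw'.2]
    rw [← Finset.card_image_of_injOn hginj]
    refine card_coprime_1d ((p.1 : ℝ) * y2) ξ (Λ p).card hξ _ ?_
    intro v hv
    simp only [Finset.mem_image, Finset.mem_filter] at hv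
    obtain ⟨w, ⟨hw, hwp⟩, rfl⟩ := hv
    obtain ⟨h1, h2, h3, h4, h5⟩ := hT w hw
    obtain ⟨l, hl, hl1, hwl, hul, hm, hgc⟩ := redp_spec y1 w h1
    rw [hwp] at hwl hul hm hgc
    simp only [hg]
    rw [← hl]
    have e1 : (w : ℝ) = (l : ℝ) * (p.1 : ℝ) := by exact_mod_cast hwl
    have e2 : ((round ((w : ℝ) * y1) : ℤ) : ℝ) = (l : ℝ) * (p.2 : ℝ) := by exact_mod_cast hul
    refine ⟨hl1, ?_, ?_, ?_⟩
    · -- l ≤ card Λ
      have hsub : Finset.Icc 1 l ⊆ Λ p := by
        intro j hj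
        simp only [Finset.mem_Icc] at hj
        simp only [hΛ, Finset.mem_filter, Finset.mem_Icc]
        have hjl : j * p.1 ≤ W := by
          calc j * p.1 ≤ l * p.1 := Nat.mul_le_mul_right _ hj.2
            _ = w := hwl.symm
            _ ≤ W := h2
        refine ⟨⟨hj.1, ?_⟩, hjl, ?_⟩
        · calc j ≤ j * p.1 := Nat.le_mul_of_pos_right _ hm
            _ ≤ W := hjl
        · have e3 : (w : ℝ) * y1 - round ((w : ℝ) * y1) = l * ((p.1 : ℝ) * y1 - p.2) := by
            rw [e2, e1]; ring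
          rw [e3, abs_mul, abs_of_nonneg (by positivity : (0:ℝ) ≤ l)] at h4
          refine lt_of_le_of_lt ?_ h4
          have : (j : ℝ) ≤ l := by exact_mod_cast hj.2
          gcongr
      have := Finset.card_le_card hsub
      simpa using this
    · -- gcd
      have d := Int.gcd_dvd_left (l : ℤ) (round ((w : ℝ) * y2))
      have d' := Int.gcd_dvd_right (l : ℤ) (round ((w : ℝ) * y2))
      apply h3
      · have : (Int.gcd (l : ℤ) (round ((w : ℝ) * y2))) ∣ l := by exact_mod_cast d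
        exact this.trans ⟨p.1, hwl⟩
      · exact d.trans ⟨p.2, hul⟩
      · exact d'
    · have : (l : ℝ) * ((p.1 : ℝ) * y2) = w * y2 := by rw [e1]; ring
      rw [this]; exact h5
  have hT1 : T.card = ∑ p ∈ P, (T.filter (fun w => redp y1 w = p)).card := by
    refine Finset.card_eq_sum_card_fiberwise ?_
    intro w hw
    exact Finset.mem_image_of_mem _ hw
  have hT2 : (T.card : ℝ) ≤ ∑ p ∈ P, (3 + 4 * ((Λ p).card : ℝ) * ξ) := by
    rw [hT1]; push_cast
    exact Finset.sum_le_sum hfib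
  have hT3 : ∑ p ∈ P, (3 + 4 * ((Λ p).card : ℝ) * ξ) = 3 * P.card + 4 * ξ * ∑ p ∈ P, ((Λ p).card : ℝ) := by
    rw [Finset.sum_add_distrib, Finset.mul_sum]
    simp only [Finset.sum_const, nsmul_eq_mul]
    congr 1
    · ring
    · apply Finset.sum_congr rfl; intro p _; ring
  have hT4 : (∑ p ∈ P, ((Λ p).card : ℝ)) ≤ W := by exact_mod_cast hsum
  rw [hT3] at hT2
  have : 4 * ξ * ∑ p ∈ P, ((Λ p).card : ℝ) ≤ 4 * ξ * W := by gcongr
  linarith

end Pool.Agent.W9.IK
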