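import Mathlib
import Pool.Agent.W9.IK2

set_option autoImplicit false

namespace Pool.Agent.W9.IK

lemma block_card {α : Type*} (e d : ℕ) (he : 0 < e) (y : ℝ) (S : Finset α) (a : α → ℤ)
    (h : ∀ s ∈ S, 0 ≤ (a s : ℝ) + y ∧ (a s : ℝ) + y < d * e)
    (hc : ∀ s ∈ S, ∀ t ∈ S, (e : ℤ) ∣ a s - a t)
    (hinj : ∀ s ∈ S, ∀ t ∈ S, a s = a t → s = t) : S.card ≤ d := by
  classical
  have her : (0 : ℝ) < e := by exact_mod_cast he
  have h1 : ∀ s ∈ S, (fun s => ⌊((a s : ℝ) + y) / e⌋) s ∈ Finset.Ico (0 : ℤ) d := by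
    intro s hs
    obtain ⟨h0, h1⟩ := h s hs
    simp only [Finset.mem_Ico]
    constructor
    · exact Int.floor_nonneg.2 (by positivity)
    · rw [Int.floor_lt, div_lt_iff₀ her]
      exact_mod_cast h1
  have h2 : Set.InjOn (fun s => ⌊((a s : ℝ) + y) / e⌋) (S : Set α) := by
    intro s hs t ht hst
    apply hinj s hs t ht
    simp only at hst
    obtain ⟨m, hm⟩ := hc s hs t ht
    have b1 := Int.floor_le (((a s : ℝ) + y) / e)
    have b2 := Int.lt_floor_add_one (((a s : ℝ) + y) / e)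
    have b3 := Int.floor_le (((a t : ℝ) + y) / e)
    have b4 := Int.lt_floor_add_one (((a t : ℝ) + y) / e)
    rw [hst] at b1 b2
    have hm' : (a s : ℝ) - a t = e * m := by exact_mod_cast hm
    have c : ((a s : ℝ) + y) / e - ((a t : ℝ) + y) / e = m := by
      rw [← sub_div]
      have : (a s : ℝ) + y - (a t + y) = e * m := by linarith
      rw [this]; field_simp
    have hm1 : |(m : ℝ)| < 1 := by
      rw [← c, abs_lt]; constructor <;> linarith
    have hm2 : |m| < 1 := by exact_mod_cast hm1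
    have hm3 := Int.abs_lt_one_iff.1 hm2
    rw [hm3] at hm
    simp at hm
    linarith
  have := Finset.card_le_card_of_injOn _ h1 h2
  simpa using this

lemma near1d_card (d e f : ℕ) (he : 0 < e) (hef : Nat.Coprime e f) (y Δ : ℝ) (hΔ : 0 < Δ)
    (N : Finset (ℤ × ℤ)) (hN : ∀ p ∈ N, 0 ≤ (p.1 : ℝ) + y ∧ (p.1 : ℝ) + y < d * e ∧
      |(f : ℝ) * (p.1 + y) - e * (p.2 + y)| < Δ) :
    (N.card : ℝ) ≤ d * (2 * Δ + 1) ∧ (2 * Δ ≤ 1 → N.card ≤ d) := by
  classical
  set κ : ℤ × ℤ → ℤ := fun p => f * p.1 - e * p.2 with hκ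
  set N' := N.image κ with hN'
  have hκn : ∀ p ∈ N, |(κ p : ℝ) - ((e : ℝ) - f) * y| < Δ := by
    intro p hp
    have := (hN p hp).2.2
    have e1 : (κ p : ℝ) - ((e : ℝ) - f) * y = (f : ℝ) * (p.1 + y) - e * (p.2 + y) := by
      simp only [hκ]; push_cast; ring
    rw [e1]; exact this
  have hfib : ∀ k ∈ N', (N.filter (fun p => κ p = k)).card ≤ d := by
    intro k hk
    refine block_card e d he y _ (fun p => p.1) ?_ ?_ ?_
    · intro s hs
      simp only [Finset.mem_filter] at hs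
      exact ⟨(hN s hs.1).1, (hN s hs.1).2.1⟩
    · intro s hs t ht
      simp only [Finset.mem_filter, hκ] at hs ht
      have : (e : ℤ) ∣ (f : ℤ) * (s.1 - t.1) := ⟨s.2 - t.2, by linarith [hs.2, ht.2]⟩
      have hc : IsCoprime (e : ℤ) (f : ℤ) := Nat.isCoprime_iff_coprime.2 hef
      exact hc.dvd_of_dvd_mul_left this
    · intro s hs t ht hst
      simp only [Finset.mem_filter, hκ] at hs ht
      have h1 : (e : ℤ) * (s.2 - t.2) = 0 := by
        have := hs.2.trans ht.2.symm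
        rw [hst] at this
        linarith
      have he0 : (e : ℤ) ≠ 0 := by positivity
      have h2 : s.2 = t.2 := by
        rcases mul_eq_zero.1 h1 with h | h
        · exact absurd h he0
        · linarith
      exact Prod.ext hst h2
  have hcard : N.card ≤ N'.card * d := by
    rw [Finset.card_eq_sum_card_fiberwise (f := κ) (t := N')
      (fun p hp => Finset.mem_image_of_mem _ hp)]
    calc ∑ k ∈ N', (N.filter (fun p => κ p = k)).card ≤ ∑ k ∈ N', d := Finset.sum_le_sum hfib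
      _ = N'.card * d := by simp
  constructor
  · have hN'c : (N'.card : ℝ) ≤ (((e : ℝ) - f) * y + Δ) - (((e : ℝ) - f) * y - Δ) + 1 := by
      refine sep_card N' (fun k => (k : ℝ)) _ _ (by linarith) ?_ ?_ ?_
      · intro k hk
        simp only [hN', Finset.mem_image] at hk
        obtain ⟨p, hp, rfl⟩ := hk
        have := abs_lt.1 (hκn p hp)
        linarith
      · intro k hk
        simp only [hN', Finset.mem_image] at hk
        obtain ⟨p, hp, rfl⟩ := hk
        have := abs_lt.1 (hκn p hp)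
        linarith
      · intro k hk k' hk' hne
        have : k - k' ≠ 0 := sub_ne_zero.2 hne
        have := Int.one_le_abs this
        exact_mod_cast this
    have h1 : (N.card : ℝ) ≤ N'.card * d := by exact_mod_cast hcard
    have hd0 : (0 : ℝ) ≤ d := by positivity
    calc (N.card : ℝ) ≤ N'.card * d := h1
      _ ≤ (2 * Δ + 1) * d := by
        apply mul_le_mul_of_nonneg_right _ hd0
        linarith
      _ = d * (2 * Δ + 1) := by ring
  · intro h2
    have hN'1 : N'.card ≤ 1 := by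
      rw [Finset.card_le_one]
      intro k hk k' hk'
      simp only [hN', Finset.mem_image] at hk hk'
      obtain ⟨p, hp, rfl⟩ := hk
      obtain ⟨p', hp', rfl⟩ := hk'
      have a1 := abs_lt.1 (hκn p hp)
      have a2 := abs_lt.1 (hκn p' hp')
      have h3 : |((κ p - κ p' : ℤ) : ℝ)| < 1 := by
        push_cast
        rw [abs_lt]; constructor <;> linarith
      have h4 : |κ p - κ p'| < 1 := by exact_mod_cast h3
      have := Int.abs_lt_one_iff.1 h4
      linarith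
    calc N.card ≤ N'.card * d := hcard
      _ ≤ 1 * d := Nat.mul_le_mul_right _ hN'1
      _ = d := one_mul d

/-- primitivity of `(w, round (w y₁), round (w y₂))` -/
def Prim (y : ℝ × ℝ) (w : ℕ) : Prop :=
  ∀ g : ℕ, g ∣ w → (g : ℤ) ∣ round ((w : ℝ) * y.1) → (g : ℤ) ∣ round ((w : ℝ) * y.2) → g = 1

open Classical in
/-- the primitive `w ≤ W` with `|w yᵢ - uᵢ| < ξ` -/
noncomputable def Tset (y : ℝ × ℝ) (W : ℕ) (ξ : ℝ) : Finset ℕ :=
  (Finset.Icc 1 W).filter (fun w => Prim y w ∧ |(w : ℝ) * y.1 - round ((w : ℝ) * y.1)| < ξ ∧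
    |(w : ℝ) * y.2 - round ((w : ℝ) * y.2)| < ξ)

lemma mem_Tset (y : ℝ × ℝ) (W : ℕ) (ξ : ℝ) (w : ℕ) : w ∈ Tset y W ξ ↔ (1 ≤ w ∧ w ≤ W) ∧
    Prim y w ∧ |(w : ℝ) * y.1 - round ((w : ℝ) * y.1)| < ξ ∧
    |(w : ℝ) * y.2 - round ((w : ℝ) * y.2)| < ξ := by
  classical
  simp [Tset]

lemma card_Tset (y : ℝ × ℝ) (W : ℕ) (ξ : ℝ) (hξ : 0 < ξ) (hξ2 : ξ ≤ 1 / 2) :
    ((Tset y W ξ).card : ℝ) ≤ 9 + 16 * W * ξ := by
  refine card_prim y.1 y.2 ξ W hξ hξ2 _ ?_
  intro w hw
  rw [mem_Tset] at hw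
  exact ⟨hw.1.1, hw.1.2, hw.2.1, hw.2.2.1, hw.2.2.2⟩

/-- The trimmed numerators for the denominator `r`. -/
def Bad (y : ℝ × ℝ) (ψ η : ℝ) (E r : ℕ) (b : ℤ × ℤ) : Prop :=
  ∃ f w : ℕ, f ∣ r ∧ E ≤ f ∧ (f : ℝ) * ψ < η ∧ w < f ∧ w ∈ Tset y f (3 * f * ψ) ∧
    Nat.Coprime w f ∧ (f : ℤ) ∣ w * b.1 + round ((w : ℝ) * y.1) ∧
    (f : ℤ) ∣ w * b.2 + round ((w : ℝ) * y.2)

/-- a set of positive integers `f` with `f ψ < η` has at most `η / ψ` elements -/
lemma count_lt (F : Finset ℕ) (ψ η : ℝ) (hψ : 0 ≤ ψ) (hη : 0 ≤ η)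
    (h : ∀ f ∈ F, 1 ≤ f ∧ (f : ℝ) * ψ < η) : (F.card : ℝ) * ψ ≤ η := by
  classical
  rcases F.eq_empty_or_nonempty with h0 | h0
  · rw [h0]; simpa using hη
  · have hsub : F ⊆ Finset.Icc 1 (F.max' h0) := by
      intro f hf
      rw [Finset.mem_Icc]
      exact ⟨(h f hf).1, Finset.le_max' _ _ hf⟩
    have h1 := Finset.card_le_card hsub
    have h2 := (h _ (F.max'_mem h0)).2
    simp only [Nat.card_Icc, Nat.add_sub_cancel] at h1
    have h3 : (F.card : ℝ) ≤ (F.max' h0 : ℝ) := by exact_mod_cast h1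
    calc (F.card : ℝ) * ψ ≤ (F.max' h0 : ℝ) * ψ := by gcongr
      _ ≤ η := h2.le

lemma sum_inv_sq (F : Finset ℕ) (E : ℕ) (hE : 1 ≤ E) (h : ∀ f ∈ F, E ≤ f) :
    ∑ f ∈ F, 1 / (f : ℝ) ^ 2 ≤ (2 : ℝ) / (E : ℝ) := by
  classical
  have hsub : F ⊆ Finset.Ioo (E - 1) (F.sup id + 1) := by
    intro f hf
    rw [Finset.mem_Ioo]
    have h1 := h f hf
    have h2 : f ≤ F.sup id := Finset.le_sup (f := id) hf
    omega
  have h1 := sum_Ioo_inv_sq_le (α := ℝ) (E - 1) (F.sup id + 1)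
  have hE2 : (((E - 1 : ℕ) : ℝ) + 1) = E := by
    rw [Nat.cast_sub hE]; push_cast; ring
  rw [hE2] at h1
  refine le_trans ?_ h1
  simp only [one_div]
  exact Finset.sum_le_sum_of_subset_of_nonneg hsub (fun _ _ _ => by positivity)

lemma sum_T (F : Finset ℕ) (E : ℕ) (hE : 1 ≤ E) (ψ η : ℝ) (hψ : 0 < ψ) (hη : 0 < η)
    (h : ∀ f ∈ F, E ≤ f ∧ (f : ℝ) * ψ < η) :
    ∑ f ∈ F, (9 + 16 * (f : ℝ) * (3 * f * ψ)) / (f : ℝ) ^ 2 ≤ (18 : ℝ) / (E : ℝ) + 48 * η := by
  have h1 : ∑ f ∈ F, (9 + 16 * (f : ℝ) * (3 * f * ψ)) / (f : ℝ) ^ 2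
      = 9 * ∑ f ∈ F, 1 / (f : ℝ) ^ 2 + 48 * ((F.card : ℝ) * ψ) := by
    rw [Finset.mul_sum]
    have : (48 : ℝ) * ((F.card : ℝ) * ψ) = ∑ f ∈ F, 48 * ψ := by simp; ring
    rw [this, ← Finset.sum_add_distrib]
    apply Finset.sum_congr rfl
    intro f hf
    have hf0 : (0 : ℝ) < f := by
      have := (h f hf).1
      have : 0 < f := by omega
      exact_mod_cast this
    field_simp
    ring
  rw [h1]
  have h2 := sum_inv_sq F E hE (fun f hf => (h f hf).1)
  have h3 := count_lt F ψ η hψ.le hη.le (fun f hf => ⟨hE.trans (h f hf).1, (h f hf).2⟩)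
  have : (18 : ℝ) / E = 9 * (2 / E) := by ring
  rw [this]
  linarith

/-- the trimmed proportion is small -/
lemma bad_card (y : ℝ × ℝ) (ψ η : ℝ) (E r : ℕ) (hr : 0 < r) (hE : 1 ≤ E) (hψ : 0 < ψ)
    (hη : 0 < η) (hη2 : η ≤ 1 / 6) (S : Finset (ℤ × ℤ))
    (hS : ∀ b ∈ S, (0 ≤ (b.1 : ℝ) + y.1 ∧ (b.1 : ℝ) + y.1 < r) ∧
      (0 ≤ (b.2 : ℝ) + y.2 ∧ (b.2 : ℝ) + y.2 < r) ∧ Bad y ψ η E r b) :
    (S.card : ℝ) ≤ (r : ℝ) ^ 2 * ((18 : ℝ) / (E : ℝ) + 48 * η) := by
  classical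
  set D := r.divisors.filter (fun f => E ≤ f ∧ (f : ℝ) * ψ < η) with hD
  set C : ℕ → ℕ → Finset (ℤ × ℤ) := fun f w => S.filter (fun b =>
    (f : ℤ) ∣ w * b.1 + round ((w : ℝ) * y.1) ∧ (f : ℤ) ∣ w * b.2 + round ((w : ℝ) * y.2)) with hC
  have hcov : S ⊆ D.biUnion (fun f => ((Tset y f (3 * f * ψ)).filter
      (fun w => Nat.Coprime w f)).biUnion (fun w => C f w)) := by
    intro b hb
    obtain ⟨-, -, f, w, h1, h2, h3, h4, h5, h6, h7, h8⟩ := hS b hb
    simp only [Finset.mem_biUnion, Finset.mem_filter, hD, hC, Nat.mem_divisors]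
    exact ⟨f, ⟨⟨h1, hr.ne'⟩, h2, h3⟩, w, ⟨h5, h6⟩, hb, h7, h8⟩
  have hCc : ∀ f ∈ D, ∀ w, Nat.Coprime w f → ((C f w).card : ℝ) ≤ ((r : ℝ) / f) ^ 2 := by
    intro f hf w hw
    simp only [hD, Finset.mem_filter, Nat.mem_divisors] at hf
    have hf0 : 0 < f := by omega
    obtain ⟨m, hm⟩ := hf.1.1
    have hsub : C f w ⊆ ((C f w).image Prod.fst) ×ˢ ((C f w).image Prod.snd) := by
      intro b hb
      rw [Finset.mem_product]
      exact ⟨Finset.mem_image_of_mem _ hb, Finset.mem_image_of_mem _ hb⟩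
    have hcw : IsCoprime (f : ℤ) (w : ℤ) := Nat.isCoprime_iff_coprime.2 hw.symm
    have k1 : ((C f w).image Prod.fst).card ≤ m := by
      refine block_card f m hf0 y.1 _ (fun x => x) ?_ ?_ (fun s _ t _ h => h)
      · intro s hs
        simp only [Finset.mem_image, hC, Finset.mem_filter] at hs
        obtain ⟨b, ⟨hb, -⟩, rfl⟩ := hs
        have := (hS b hb).1
        rw [hm] at this
        push_cast at this
        exact ⟨this.1, by linarith [this.2]⟩
      · intro s hs t ht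
        simp only [Finset.mem_image, hC, Finset.mem_filter] at hs ht
        obtain ⟨b, ⟨hb, hb1, -⟩, rfl⟩ := hs
        obtain ⟨b', ⟨hb', hb1', -⟩, rfl⟩ := ht
        have := dvd_sub hb1 hb1'
        have e : (w : ℤ) * b.1 + round ((w : ℝ) * y.1) - (w * b'.1 + round ((w : ℝ) * y.1))
          = w * (b.1 - b'.1) := by ring
        rw [e] at this
        exact hcw.dvd_of_dvd_mul_left this
    have k2 : ((C f w).image Prod.snd).card ≤ m := by
      refine block_card f m hf0 y.2 _ (fun x => x) ?_ ?_ (fun s _ t _ h => h)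
      · intro s hs
        simp only [Finset.mem_image, hC, Finset.mem_filter] at hs
        obtain ⟨b, ⟨hb, -⟩, rfl⟩ := hs
        have := (hS b hb).2.1
        rw [hm] at this
        push_cast at this
        exact ⟨this.1, by linarith [this.2]⟩
      · intro s hs t ht
        simp only [Finset.mem_image, hC, Finset.mem_filter] at hs ht
        obtain ⟨b, ⟨hb, -, hb1⟩, rfl⟩ := hs
        obtain ⟨b', ⟨hb', -, hb1'⟩, rfl⟩ := ht
        have := dvd_sub hb1 hb1'
        have e : (w : ℤ) * b.2 + round ((w : ℝ) * y.2) - (w * b'.2 + round ((w : ℝ) * y.2))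
          = w * (b.2 - b'.2) := by ring
        rw [e] at this
        exact hcw.dvd_of_dvd_mul_left this
    have k3 : (C f w).card ≤ m * m := by
      refine (Finset.card_le_card hsub).trans ?_
      rw [Finset.card_product]
      exact Nat.mul_le_mul k1 k2
    have hfr : (0 : ℝ) < f := by exact_mod_cast hf0
    have : (r : ℝ) / f = m := by
      rw [hm]; push_cast; field_simp
    rw [this, sq]
    exact_mod_cast k3
  have h1 : (S.card : ℝ) ≤ ∑ f ∈ D, (9 + 16 * f * (3 * f * ψ)) * ((r : ℝ) / f) ^ 2 := by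
    have h2 : S.card ≤ ∑ f ∈ D, ∑ w ∈ (Tset y f (3 * f * ψ)).filter
        (fun w => Nat.Coprime w f), (C f w).card := by
      refine (Finset.card_le_card hcov).trans (Finset.card_biUnion_le.trans ?_)
      exact Finset.sum_le_sum (fun f _ => Finset.card_biUnion_le)
    have h3 : (S.card : ℝ) ≤ ∑ f ∈ D, ∑ w ∈ (Tset y f (3 * f * ψ)).filter
        (fun w => Nat.Coprime w f), ((C f w).card : ℝ) := by exact_mod_cast h2
    refine h3.trans (Finset.sum_le_sum ?_)
    intro f hf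
    have hf' := hf
    simp only [hD, Finset.mem_filter, Nat.mem_divisors] at hf'
    have hf0 : 0 < f := by omega
    have hfr : (0 : ℝ) < f := by exact_mod_cast hf0
    have hT := card_Tset y f (3 * f * ψ) (by positivity) (by nlinarith [hf'.2.2])
    calc ∑ w ∈ (Tset y f (3 * f * ψ)).filter (fun w => Nat.Coprime w f), ((C f w).card : ℝ)
        ≤ ∑ w ∈ (Tset y f (3 * f * ψ)).filter (fun w => Nat.Coprime w f), ((r : ℝ) / f) ^ 2 := by
          apply Finset.sum_le_sum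
          intro w hw
          exact hCc f hf w (Finset.mem_filter.1 hw).2
      _ = (((Tset y f (3 * f * ψ)).filter (fun w => Nat.Coprime w f)).card : ℝ)
          * ((r : ℝ) / f) ^ 2 := by simp
      _ ≤ (9 + 16 * f * (3 * f * ψ)) * ((r : ℝ) / f) ^ 2 := by
          apply mul_le_mul_of_nonneg_right _ (by positivity)
          refine le_trans ?_ hT
          exact_mod_cast Finset.card_filter_le _ _
  refine h1.trans ?_
  have h4 : ∑ f ∈ D, (9 + 16 * (f : ℝ) * (3 * f * ψ)) * ((r : ℝ) / f) ^ 2 =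
      (r : ℝ) ^ 2 * ∑ f ∈ D, (9 + 16 * (f : ℝ) * (3 * f * ψ)) / (f : ℝ) ^ 2 := by
    rw [Finset.mul_sum]
    apply Finset.sum_congr rfl
    intro f _
    rw [div_pow]; ring
  rw [h4]
  apply mul_le_mul_of_nonneg_left _ (by positivity)
  refine sum_T D E hE ψ η hψ hη ?_
  intro f hf
  simp only [hD, Finset.mem_filter] at hf
  exact hf.2

end Pool.Agent.W9.IK
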