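import Mathlib
import Pool.Agent.W9.IK3

set_option autoImplicit false

namespace Pool.Agent.W9.IK

lemma round_eq_of {x : ℝ} {u : ℤ} (h : |x - u| < 1 / 2) : round x = u := by
  have h1 := abs_sub_round x
  have h2 : |((round x - u : ℤ) : ℝ)| < 1 := by
    push_cast
    have : (round x : ℝ) - u = (x - u) - (x - round x) := by ring
    rw [this]
    calc |(x - u) - (x - round x)| ≤ |x - u| + |x - round x| := abs_sub _ _
      _ < 1 := by linarith
  have h3 : |round x - u| < 1 := by exact_mod_cast h2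
  have := Int.abs_lt_one_iff.1 h3
  linarith

/-- A near coincidence with an untrimmed numerator forces a large primitive `w`. -/
lemma near_good (y : ℝ × ℝ) (ψq ψr η : ℝ) (E d e f : ℕ) (he : 0 < e) (hf : 0 < f)
    (hef : Nat.Coprime e f) (hne : e ≠ f) (hq0 : 0 ≤ ψq) (hqr : ψq ≤ ψr) (hr0 : 0 < ψr)
    (hη : η ≤ 1 / 6) (hΔ : f * ψq + e * ψr < η) (a b : ℤ × ℤ)
    (h1 : |(f : ℝ) * (a.1 + y.1) - e * (b.1 + y.1)| < f * ψq + e * ψr)
    (h2 : |(f : ℝ) * (a.2 + y.2) - e * (b.2 + y.2)| < f * ψq + e * ψr)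
    (hE : E ≤ f) (hfη : (f : ℝ) * ψr < η) (hgood : ¬ Bad y ψr η E (d * f) b) :
    f < e ∧ ∃ w ∈ Tset y e (3 * e * ψr), f ≤ w ∧ w ∣ (e - f) := by
  have her : (0 : ℝ) < e := by exact_mod_cast he
  have hfr : (0 : ℝ) < f := by exact_mod_cast hf
  set Δ : ℝ := f * ψq + e * ψr with hΔd
  set n : ℤ := (e : ℤ) - f with hn
  have hn0 : n ≠ 0 := by
    intro h
    apply hne
    have : (e : ℤ) = f := by linarith
    exact_mod_cast this
  set k1 : ℤ := f * a.1 - e * b.1 with hk1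
  set k2 : ℤ := f * a.2 - e * b.2 with hk2
  have hk1' : |(k1 : ℝ) - n * y.1| < Δ := by
    have : (k1 : ℝ) - n * y.1 = (f : ℝ) * (a.1 + y.1) - e * (b.1 + y.1) := by
      rw [hk1, hn]; push_cast; ring
    rw [this]; exact h1
  have hk2' : |(k2 : ℝ) - n * y.2| < Δ := by
    have : (k2 : ℝ) - n * y.2 = (f : ℝ) * (a.2 + y.2) - e * (b.2 + y.2) := by
      rw [hk2, hn]; push_cast; ring
    rw [this]; exact h2
  -- the gcd
  set g : ℕ := Nat.gcd n.natAbs (Nat.gcd k1.natAbs k2.natAbs) with hg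
  have hg0 : 0 < g := Nat.gcd_pos_of_pos_left _ (Int.natAbs_pos.2 hn0)
  have hgn : (g : ℤ) ∣ n := Int.natCast_dvd.2 (Nat.gcd_dvd_left _ _)
  have hgk1 : (g : ℤ) ∣ k1 :=
    Int.natCast_dvd.2 ((Nat.gcd_dvd_right _ _).trans (Nat.gcd_dvd_left _ _))
  have hgk2 : (g : ℤ) ∣ k2 :=
    Int.natCast_dvd.2 ((Nat.gcd_dvd_right _ _).trans (Nat.gcd_dvd_right _ _))
  obtain ⟨n', hn'⟩ := hgn
  obtain ⟨v1, hv1⟩ := hgk1
  obtain ⟨v2, hv2⟩ := hgk2
  -- sign
  set σ : ℤ := n'.sign with hσ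
  have hn'0 : n' ≠ 0 := by
    rintro rfl; simp at hn'; exact hn0 hn'
  have hσ2 : σ * σ = 1 := by
    rcases lt_or_gt_of_ne hn'0 with h | h
    · rw [hσ, Int.sign_eq_neg_one_of_neg h]; norm_num
    · rw [hσ, Int.sign_eq_one_of_pos h]; norm_num
  set w : ℕ := n'.natAbs with hw
  have hw1 : 1 ≤ w := Int.natAbs_pos.2 hn'0
  have hwσ : (w : ℤ) = σ * n' := by
    rw [hw, hσ]
    exact (Int.sign_mul_self_eq_natAbs n').symm
  have hgr : (0 : ℝ) < g := by exact_mod_cast hg0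
  have hgr1 : (1 : ℝ) ≤ g := by exact_mod_cast hg0
  have hσr : (σ : ℝ) * σ = 1 := by exact_mod_cast hσ2
  have hσabs : |(σ : ℝ)| = 1 := by
    have : |(σ : ℝ)| * |(σ : ℝ)| = 1 := by rw [← abs_mul, hσr]; simp
    have h0 := abs_nonneg (σ : ℝ)
    nlinarith
  set u1 : ℤ := σ * v1 with hu1
  set u2 : ℤ := σ * v2 with hu2
  have hd1 : |(w : ℝ) * y.1 - u1| = |(k1 : ℝ) - n * y.1| / g := by
    have e1 : (w : ℝ) = σ * n' := by exact_mod_cast hwσ
    have e2 : (k1 : ℝ) = g * v1 := by exact_mod_cast hv1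
    have e3 : (n : ℝ) = g * n' := by exact_mod_cast hn'
    have : (k1 : ℝ) - n * y.1 = g * (-(σ : ℝ) * ((w : ℝ) * y.1 - u1)) := by
      rw [e1, e2, e3, hu1]
      push_cast
      linear_combination (-(g:ℝ) * v1 + g * n' * y.1) * (hσr)
    rw [this, abs_mul, abs_of_pos hgr, abs_mul, abs_neg, hσabs]
    field_simp
  have hd2 : |(w : ℝ) * y.2 - u2| = |(k2 : ℝ) - n * y.2| / g := by
    have e1 : (w : ℝ) = σ * n' := by exact_mod_cast hwσ
    have e2 : (k2 : ℝ) = g * v2 := by exact_mod_cast hv2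
    have e3 : (n : ℝ) = g * n' := by exact_mod_cast hn'
    have : (k2 : ℝ) - n * y.2 = g * (-(σ : ℝ) * ((w : ℝ) * y.2 - u2)) := by
      rw [e1, e2, e3, hu2]
      push_cast
      linear_combination (-(g:ℝ) * v2 + g * n' * y.2) * (hσr)
    rw [this, abs_mul, abs_of_pos hgr, abs_mul, abs_neg, hσabs]
    field_simp
  have hD1 : |(w : ℝ) * y.1 - u1| < Δ / g := by
    rw [hd1]; gcongr
  have hD2 : |(w : ℝ) * y.2 - u2| < Δ / g := by
    rw [hd2]; gcongr
  have hΔ0 : 0 < Δ := by positivity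
  have hΔg : Δ / g ≤ Δ := div_le_self hΔ0.le hgr1
  have hr1 : round ((w : ℝ) * y.1) = u1 := round_eq_of (by linarith)
  have hr2 : round ((w : ℝ) * y.2) = u2 := round_eq_of (by linarith)
  -- primitivity
  have hprim : Prim y w := by
    intro g' hg1 hg2 hg3
    rw [hr1] at hg2
    rw [hr2] at hg3
    have hσu : ∀ z : ℤ, (g' : ℤ) ∣ σ * z → (g' : ℤ) ∣ z := by
      intro z hz
      have : z = σ * (σ * z) := by rw [← mul_assoc, hσ2, one_mul]
      rw [this]
      exact Dvd.dvd.mul_left hz σ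
    have c1 : (g' : ℤ) ∣ v1 := hσu _ hg2
    have c2 : (g' : ℤ) ∣ v2 := hσu _ hg3
    have c0 : (g' : ℤ) ∣ n' := Int.natCast_dvd.2 hg1
    have d0 : ((g * g' : ℕ) : ℤ) ∣ n := by rw [hn']; push_cast; exact mul_dvd_mul_left _ c0
    have d1 : ((g * g' : ℕ) : ℤ) ∣ k1 := by rw [hv1]; push_cast; exact mul_dvd_mul_left _ c1
    have d2 : ((g * g' : ℕ) : ℤ) ∣ k2 := by rw [hv2]; push_cast; exact mul_dvd_mul_left _ c2
    have : g * g' ∣ g := by
      rw [hg]
      exact Nat.dvd_gcd (Int.natCast_dvd.1 d0)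
        (Nat.dvd_gcd (Int.natCast_dvd.1 d1) (Int.natCast_dvd.1 d2))
    have h3 : g * g' ≤ g * 1 := by simpa using Nat.le_of_dvd hg0 this
    have h4 : g' ≤ 1 := Nat.le_of_mul_le_mul_left h3 hg0
    have h5 : g' ≠ 0 := by
      rintro rfl
      have := Nat.eq_zero_of_zero_dvd hg1
      omega
    omega
  -- coprimality
  have hcef : IsCoprime (e : ℤ) (f : ℤ) := Nat.isCoprime_iff_coprime.2 hef
  have hcnf : IsCoprime n (f : ℤ) := by
    rw [hn]
    have := hcef.add_mul_left_left (-1)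
    simpa [sub_eq_add_neg] using this
  have hcgf : IsCoprime (g : ℤ) (f : ℤ) := hcnf.of_isCoprime_of_dvd_left ⟨n', hn'⟩
  have hcn'f : IsCoprime n' (f : ℤ) :=
    hcnf.of_isCoprime_of_dvd_left ⟨g, by rw [hn']; ring⟩
  have hcwf : Nat.Coprime w f := by
    rw [← Nat.isCoprime_iff_coprime, hwσ]
    have hσunit : IsUnit σ := IsUnit.of_mul_eq_one σ hσ2
    exact (isCoprime_mul_unit_left_left hσunit _ _).2 hcn'f
  -- divisibility
  have hdiv : ∀ (a' b' k v : ℤ), k = f * a' - e * b' → k = g * v → (f : ℤ) ∣ w * b' + σ * v := by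
    intro a' b' k v hk hv
    have h3 : (f : ℤ) ∣ n * b' + k := by
      refine ⟨a' - b', ?_⟩
      rw [hk, hn]; ring
    have h4 : (f : ℤ) ∣ (g : ℤ) * (n' * b' + v) := by
      have : (g : ℤ) * (n' * b' + v) = n * b' + k := by rw [hv, hn']; ring
      rw [this]; exact h3
    have h5 : (f : ℤ) ∣ n' * b' + v := hcgf.symm.dvd_of_dvd_mul_left h4
    have h6 : (w : ℤ) * b' + σ * v = σ * (n' * b' + v) := by rw [hwσ]; ring
    rw [h6]
    exact Dvd.dvd.mul_left h5 σ
  have hf1 := hdiv a.1 b.1 k1 v1 hk1 hv1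
  have hf2 := hdiv a.2 b.2 k2 v2 hk2 hv2
  -- size
  have hnabs : |n| = g * w := by
    rw [hn', abs_mul, Nat.abs_cast, hw]
    simp
  have hΔle : Δ ≤ (f + e) * ψr := by
    rw [hΔd]
    have : (f : ℝ) * ψq ≤ f * ψr := by gcongr
    linarith
  have hele : (e : ℝ) ≤ f + g * w := by
    have h3 : (e : ℤ) ≤ f + |n| := by
      have := le_abs_self n
      rw [hn] at this ⊢
      linarith
    rw [hnabs] at h3
    exact_mod_cast h3
  have hwr : (1 : ℝ) ≤ w := by exact_mod_cast hw1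
  have hΔg2 : Δ / g ≤ (2 * f + w) * ψr := by
    rw [div_le_iff₀ hgr]
    have h3 : Δ ≤ (2 * f + g * w) * ψr := by
      refine hΔle.trans ?_
      apply mul_le_mul_of_nonneg_right _ hr0.le
      linarith
    refine h3.trans ?_
    have : (2 * (f : ℝ) + g * w) * ψr ≤ ((2 * f + w) * g) * ψr := by
      apply mul_le_mul_of_nonneg_right _ hr0.le
      nlinarith
    linarith
  -- f ≤ w
  have hfw : f ≤ w := by
    by_contra hlt
    push Not at hlt
    apply hgood
    have hltr : (w : ℝ) < f := by exact_mod_cast hlt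
    have hb : Δ / g < 3 * f * ψr := by
      refine lt_of_le_of_lt hΔg2 ?_
      apply mul_lt_mul_of_pos_right _ hr0
      linarith
    refine ⟨f, w, Dvd.intro_left d rfl, hE, hfη, hlt, ?_, hcwf, ?_, ?_⟩
    · rw [mem_Tset, hr1, hr2]
      exact ⟨⟨hw1, hlt.le⟩, hprim, hD1.trans hb, hD2.trans hb⟩
    · rw [hr1]; exact hf1
    · rw [hr2]; exact hf2
  have hgw : f ≤ g * w := hfw.trans (Nat.le_mul_of_pos_left _ hg0)
  have hlt : f < e := by
    by_contra hle
    push Not at hle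
    have hlt' : e < f := lt_of_le_of_ne hle hne
    have : |n| = (f : ℤ) - e := by
      rw [hn, abs_of_neg (by have : (e : ℤ) < f := by exact_mod_cast hlt'
                             linarith)]
      ring
    rw [this] at hnabs
    have h5 : (f : ℤ) ≤ g * w := by exact_mod_cast hgw
    have h6 : (0 : ℤ) < e := by exact_mod_cast he
    linarith
  refine ⟨hlt, w, ?_, hfw, ?_⟩
  · have hwe : w ≤ e := by
      have : |n| = (e : ℤ) - f := by
        rw [hn, abs_of_pos]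
        have : (f : ℤ) < e := by exact_mod_cast hlt
        linarith
      rw [this] at hnabs
      have h7 : (w : ℤ) ≤ g * w := by
        have : w ≤ g * w := Nat.le_mul_of_pos_left _ hg0
        exact_mod_cast this
      have : (w : ℤ) ≤ e := by
        have : (0 : ℤ) < f := by exact_mod_cast hf
        linarith
      exact_mod_cast this
    rw [mem_Tset, hr1, hr2]
    have hfwr : (f : ℝ) ≤ w := by exact_mod_cast hfw
    have hwer : (w : ℝ) ≤ e := by exact_mod_cast hwe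
    have hb : Δ / g ≤ 3 * e * ψr := by
      refine hΔg2.trans ?_
      apply mul_le_mul_of_nonneg_right _ hr0.le
      linarith
    exact ⟨⟨hw1, hwe⟩, hprim, hD1.trans_le hb, hD2.trans_le hb⟩
  · have : (w : ℤ) ∣ ((e - f : ℕ) : ℤ) := by
      rw [Nat.cast_sub hlt.le, ← hn, hn', hwσ]
      have hn'σ : n' = σ * (σ * n') := by rw [← mul_assoc, hσ2, one_mul]
      conv_rhs => rw [hn'σ]
      exact ⟨g * σ, by ring⟩
    exact_mod_cast this

end Pool.Agent.W9.IK
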