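import Mathlib
import Pool.Agent.W9.IK4

set_option autoImplicit false

namespace Pool.Agent.W9.IK

/-- the condition satisfied by the ratio `e / f` of a pair with a near coincidence -/
def Cond (y : ℝ × ℝ) (ψ η : ℝ) (E e f : ℕ) : Prop :=
  f < E ∨ ((e : ℝ) * ψ < η ∧ η ≤ f * ψ) ∨
    ((e : ℝ) * ψ < η ∧ f < e ∧ ∃ w ∈ Tset y e (3 * e * ψ), f ≤ w ∧ w ∣ (e - f))

lemma sum_Z (y : ℝ × ℝ) (ψ η : ℝ) (E : ℕ) (hψ : 0 < ψ) (hη0 : 0 < η) (hη : η ≤ 1 / 6)
    (Z : Finset (ℕ × ℕ)) (hZ : ∀ z ∈ Z, 1 ≤ z.1 ∧ 1 ≤ z.2 ∧ Cond y ψ η E z.1 z.2) :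
    ∑ z ∈ Z, 1 / ((max z.1 z.2 : ℕ) : ℝ) ^ 2 ≤ 2 * (E : ℝ) + 28 := by
  classical
  set A := Z.filter (fun z => z.2 < E) with hA
  set B := Z.filter (fun z => (z.1 : ℝ) * ψ < η ∧ η ≤ z.2 * ψ) with hB
  set C := Z.filter (fun z => (z.1 : ℝ) * ψ < η ∧ z.2 < z.1 ∧
    ∃ w ∈ Tset y z.1 (3 * z.1 * ψ), z.2 ≤ w ∧ w ∣ (z.1 - z.2)) with hC
  have hcov : Z ⊆ A ∪ (B ∪ C) := by
    intro z hz
    simp only [Finset.mem_union, hA, hB, hC, Finset.mem_filter, hz, true_and]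
    exact (hZ z hz).2.2
  have hnn : ∀ z : ℕ × ℕ, 0 ≤ 1 / ((max z.1 z.2 : ℕ) : ℝ) ^ 2 := fun z => by positivity
  have h0 : ∑ z ∈ Z, 1 / ((max z.1 z.2 : ℕ) : ℝ) ^ 2 ≤ ∑ z ∈ A, 1 / ((max z.1 z.2 : ℕ) : ℝ) ^ 2 +
      (∑ z ∈ B, 1 / ((max z.1 z.2 : ℕ) : ℝ) ^ 2 + ∑ z ∈ C, 1 / ((max z.1 z.2 : ℕ) : ℝ) ^ 2) := by
    have h1 := Finset.sum_le_sum_of_subset_of_nonneg hcov (fun z _ _ => hnn z)
    have h2 := Finset.sum_union_inter (s₁ := A) (s₂ := B ∪ C)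
      (f := fun z => 1 / ((max z.1 z.2 : ℕ) : ℝ) ^ 2)
    have h3 := Finset.sum_union_inter (s₁ := B) (s₂ := C)
      (f := fun z => 1 / ((max z.1 z.2 : ℕ) : ℝ) ^ 2)
    have h4 : 0 ≤ ∑ z ∈ A ∩ (B ∪ C), 1 / ((max z.1 z.2 : ℕ) : ℝ) ^ 2 :=
      Finset.sum_nonneg (fun z _ => hnn z)
    have h5 : 0 ≤ ∑ z ∈ B ∩ C, 1 / ((max z.1 z.2 : ℕ) : ℝ) ^ 2 :=
      Finset.sum_nonneg (fun z _ => hnn z)
    linarith
  -- comparison with one coordinate
  have hle1 : ∀ z ∈ Z, 1 / ((max z.1 z.2 : ℕ) : ℝ) ^ 2 ≤ 1 / (z.1 : ℝ) ^ 2 := by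
    intro z hz
    have h1 : (0 : ℝ) < z.1 := by
      have : 0 < z.1 := (hZ z hz).1
      exact_mod_cast this
    have h2 : (z.1 : ℝ) ≤ ((max z.1 z.2 : ℕ) : ℝ) := by exact_mod_cast le_max_left _ _
    gcongr
  have hle2 : ∀ z ∈ Z, 1 / ((max z.1 z.2 : ℕ) : ℝ) ^ 2 ≤ 1 / (z.2 : ℝ) ^ 2 := by
    intro z hz
    have h1 : (0 : ℝ) < z.2 := by
      have : 0 < z.2 := (hZ z hz).2.1
      exact_mod_cast this
    have h2 : (z.2 : ℝ) ≤ ((max z.1 z.2 : ℕ) : ℝ) := by exact_mod_cast le_max_right _ _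
    gcongr
  -- A
  have hAs : ∑ z ∈ A, 1 / ((max z.1 z.2 : ℕ) : ℝ) ^ 2 ≤ 2 * (E : ℝ) := by
    have h1 : ∑ z ∈ A, 1 / ((max z.1 z.2 : ℕ) : ℝ) ^ 2 ≤ ∑ z ∈ A, 1 / (z.1 : ℝ) ^ 2 :=
      Finset.sum_le_sum (fun z hz => hle1 z (Finset.mem_filter.1 hz).1)
    have h2 : ∑ z ∈ A, 1 / (z.1 : ℝ) ^ 2 ≤
        ∑ z ∈ (A.image Prod.fst) ×ˢ (Finset.range E), 1 / (z.1 : ℝ) ^ 2 := by
      apply Finset.sum_le_sum_of_subset_of_nonneg
      · intro z hz
        rw [Finset.mem_product]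
        exact ⟨Finset.mem_image_of_mem _ hz, Finset.mem_range.2 (Finset.mem_filter.1 hz).2⟩
      · intro _ _ _; positivity
    have h3 : ∑ z ∈ (A.image Prod.fst) ×ˢ (Finset.range E), 1 / (z.1 : ℝ) ^ 2 =
        (E : ℝ) * ∑ e ∈ A.image Prod.fst, 1 / (e : ℝ) ^ 2 := by
      rw [Finset.sum_product, Finset.mul_sum]
      apply Finset.sum_congr rfl
      intro e _
      simp
    have h4 := sum_inv_sq (A.image Prod.fst) 1 le_rfl (by
      intro f hf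
      simp only [Finset.mem_image] at hf
      obtain ⟨z, hz, rfl⟩ := hf
      exact (hZ z (Finset.mem_filter.1 hz).1).1)
    have h5 : (E : ℝ) * ∑ e ∈ A.image Prod.fst, 1 / (e : ℝ) ^ 2 ≤ E * 2 := by
      apply mul_le_mul_of_nonneg_left _ (by positivity)
      simpa using h4
    linarith
  -- B
  have hBs : ∑ z ∈ B, 1 / ((max z.1 z.2 : ℕ) : ℝ) ^ 2 ≤ 2 := by
    have h1 : ∑ z ∈ B, 1 / ((max z.1 z.2 : ℕ) : ℝ) ^ 2 ≤ ∑ z ∈ B, 1 / (z.2 : ℝ) ^ 2 :=
      Finset.sum_le_sum (fun z hz => hle2 z (Finset.mem_filter.1 hz).1)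
    have h2 : ∑ z ∈ B, 1 / (z.2 : ℝ) ^ 2 ≤
        ∑ z ∈ (B.image Prod.fst) ×ˢ (B.image Prod.snd), 1 / (z.2 : ℝ) ^ 2 := by
      apply Finset.sum_le_sum_of_subset_of_nonneg
      · intro z hz
        rw [Finset.mem_product]
        exact ⟨Finset.mem_image_of_mem _ hz, Finset.mem_image_of_mem _ hz⟩
      · intro _ _ _; positivity
    have h3 : ∑ z ∈ (B.image Prod.fst) ×ˢ (B.image Prod.snd), 1 / (z.2 : ℝ) ^ 2 =
        ((B.image Prod.fst).card : ℝ) * ∑ f ∈ B.image Prod.snd, 1 / (f : ℝ) ^ 2 := by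
      rw [Finset.sum_product]
      simp
    have hc := count_lt (B.image Prod.fst) ψ η hψ.le hη0.le (by
      intro f hf
      simp only [Finset.mem_image] at hf
      obtain ⟨z, hz, rfl⟩ := hf
      have h := Finset.mem_filter.1 hz
      exact ⟨(hZ z h.1).1, h.2.1⟩)
    rcases Nat.eq_zero_or_pos (B.image Prod.fst).card with h0 | h0
    · rw [h0] at h3
      simp only [Nat.cast_zero, zero_mul] at h3
      linarith
    · have h4 := sum_inv_sq (B.image Prod.snd) (B.image Prod.fst).card h0 (by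
        intro f hf
        simp only [Finset.mem_image] at hf
        obtain ⟨z, hz, rfl⟩ := hf
        have h := Finset.mem_filter.1 hz
        have : ((B.image Prod.fst).card : ℝ) * ψ ≤ z.2 * ψ := hc.trans h.2.2
        have := le_of_mul_le_mul_right this hψ
        exact_mod_cast this)
      have hcr : (0 : ℝ) < (B.image Prod.fst).card := by exact_mod_cast h0
      have h5 : ((B.image Prod.fst).card : ℝ) * ∑ f ∈ B.image Prod.snd, 1 / (f : ℝ) ^ 2 ≤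
          ((B.image Prod.fst).card : ℝ) * (2 / (B.image Prod.fst).card) := by gcongr
      have h6 : ((B.image Prod.fst).card : ℝ) * (2 / (B.image Prod.fst).card) = 2 := by
        field_simp
      linarith
  -- C
  have hCs : ∑ z ∈ C, 1 / ((max z.1 z.2 : ℕ) : ℝ) ^ 2 ≤ 26 := by
    have h1 : ∑ z ∈ C, 1 / ((max z.1 z.2 : ℕ) : ℝ) ^ 2 ≤ ∑ z ∈ C, 1 / (z.1 : ℝ) ^ 2 :=
      Finset.sum_le_sum (fun z hz => hle1 z (Finset.mem_filter.1 hz).1)
    have h2 : ∑ z ∈ C, 1 / (z.1 : ℝ) ^ 2 =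
        ∑ e ∈ C.image Prod.fst, ((C.filter (fun z => z.1 = e)).card : ℝ) / (e : ℝ) ^ 2 := by
      rw [← Finset.sum_fiberwise_of_maps_to (s := C) (t := C.image Prod.fst) (g := Prod.fst)
        (fun z hz => Finset.mem_image_of_mem _ hz)]
      apply Finset.sum_congr rfl
      intro e _
      have : ∑ z ∈ C.filter (fun z => z.1 = e), 1 / (z.1 : ℝ) ^ 2 =
          ∑ z ∈ C.filter (fun z => z.1 = e), 1 / (e : ℝ) ^ 2 := by
        apply Finset.sum_congr rfl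
        intro z hz
        rw [(Finset.mem_filter.1 hz).2]
      rw [this, Finset.sum_const, nsmul_eq_mul, mul_one_div]
    have hE' : ∀ e ∈ C.image Prod.fst, 1 ≤ e ∧ (e : ℝ) * ψ < η := by
      intro e he
      simp only [Finset.mem_image] at he
      obtain ⟨z, hz, rfl⟩ := he
      have h := Finset.mem_filter.1 hz
      exact ⟨(hZ z h.1).1, h.2.1⟩
    have h3 : ∀ e ∈ C.image Prod.fst, ((C.filter (fun z => z.1 = e)).card : ℝ) ≤
        9 + 16 * (e : ℝ) * (3 * e * ψ) := by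
      intro e he
      obtain ⟨he1, he2⟩ := hE' e he
      have her : (0 : ℝ) < e := by
        have : 0 < e := he1
        exact_mod_cast this
      have hT := card_Tset y e (3 * e * ψ) (by positivity) (by nlinarith)
      refine le_trans ?_ hT
      have hch : ∀ z ∈ C.filter (fun z => z.1 = e), ∃ w ∈ Tset y e (3 * e * ψ),
          z.2 ≤ w ∧ w ∣ (e - z.2) := by
        intro z hz
        obtain ⟨hz1, hz2⟩ := Finset.mem_filter.1 hz
        obtain ⟨-, -, -, w, hw1, hw2, hw3⟩ := Finset.mem_filter.1 hz1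
        rw [hz2] at hw1 hw3
        exact ⟨w, hw1, hw2, hw3⟩
      choose! W hW1 hW2 hW3 using hch
      have hinj : Set.InjOn W (C.filter (fun z => z.1 = e) : Set (ℕ × ℕ)) := by
        intro z hz z' hz' hww
        have k1 := hW2 z hz
        have k2 := hW3 z hz
        have k1' := hW2 z' hz'
        have k2' := hW3 z' hz'
        rw [← hww] at k1' k2'
        simp only [Finset.coe_filter, Set.mem_ofPred_eq] at hz hz'
        have g1 : 1 ≤ z.2 := (hZ z (Finset.mem_filter.1 hz.1).1).2.1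
        have g1' : 1 ≤ z'.2 := (hZ z' (Finset.mem_filter.1 hz'.1).1).2.1
        have g2 : z.2 < e := by rw [← hz.2]; exact (Finset.mem_filter.1 hz.1).2.2.1
        have g2' : z'.2 < e := by rw [← hz'.2]; exact (Finset.mem_filter.1 hz'.1).2.2.1
        have hd : (W z : ℤ) ∣ (z.2 : ℤ) - z'.2 := by
          have a1 : (W z : ℤ) ∣ ((e - z.2 : ℕ) : ℤ) := by exact_mod_cast k2
          have a2 : (W z : ℤ) ∣ ((e - z'.2 : ℕ) : ℤ) := by exact_mod_cast k2'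
          rw [Nat.cast_sub g2.le] at a1
          rw [Nat.cast_sub g2'.le] at a2
          have := dvd_sub a2 a1
          have e1 : (e : ℤ) - z'.2 - (e - z.2) = (z.2 : ℤ) - z'.2 := by ring
          rwa [e1] at this
        have hlt : |(z.2 : ℤ) - z'.2| < W z := by
          rw [abs_lt]
          have b1 : (z.2 : ℤ) ≤ W z := by exact_mod_cast k1
          have b2 : (z'.2 : ℤ) ≤ W z := by exact_mod_cast k1'
          have b3 : (1 : ℤ) ≤ z.2 := by exact_mod_cast g1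
          have b4 : (1 : ℤ) ≤ z'.2 := by exact_mod_cast g1'
          constructor <;> linarith
        have h0 := Int.eq_zero_of_abs_lt_dvd hd hlt
        have h5 : z.2 = z'.2 := by
          have : (z.2 : ℤ) = z'.2 := by linarith
          exact_mod_cast this
        exact Prod.ext (hz.2.trans hz'.2.symm) h5
      have := Finset.card_le_card_of_injOn W (fun z hz => hW1 z hz) hinj
      exact_mod_cast this
    have h4 : ∑ e ∈ C.image Prod.fst, ((C.filter (fun z => z.1 = e)).card : ℝ) / (e : ℝ) ^ 2 ≤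
        ∑ e ∈ C.image Prod.fst, (9 + 16 * (e : ℝ) * (3 * e * ψ)) / (e : ℝ) ^ 2 := by
      apply Finset.sum_le_sum
      intro e he
      have := h3 e he
      gcongr
    have h5 := sum_T (C.image Prod.fst) 1 le_rfl ψ η hψ hη0 hE'
    norm_num at h5
    linarith
  linarith

/-- the sum over all `q` near `r` -/
lemma sum_II (y : ℝ × ℝ) (ψ η : ℝ) (E r : ℕ) (hr : 0 < r) (hψ : 0 < ψ) (hη0 : 0 < η)
    (hη : η ≤ 1 / 6) (Q : Finset ℕ)
    (hQ : ∀ q ∈ Q, 0 < q ∧ Cond y ψ η E (q / Nat.gcd q r) (r / Nat.gcd q r)) :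
    ∑ q ∈ Q, 1 / ((max (q / Nat.gcd q r) (r / Nat.gcd q r) : ℕ) : ℝ) ^ 2 ≤ 2 * (E : ℝ) + 28 := by
  classical
  set m : ℕ → ℕ × ℕ := fun q => (q / Nat.gcd q r, r / Nat.gcd q r) with hm
  have hinj : Set.InjOn m (Q : Set ℕ) := by
    intro q hq q' hq' h
    simp only [hm, Prod.mk.injEq] at h
    have g1 : 0 < Nat.gcd q r := Nat.gcd_pos_of_pos_right _ hr
    have g1' : 0 < Nat.gcd q' r := Nat.gcd_pos_of_pos_right _ hr
    have a1 := Nat.mul_div_cancel' (Nat.gcd_dvd_right q r)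
    have a2 := Nat.mul_div_cancel' (Nat.gcd_dvd_right q' r)
    have hf0 : 0 < r / Nat.gcd q r := Nat.div_pos (Nat.le_of_dvd hr (Nat.gcd_dvd_right q r)) g1
    have a3 : Nat.gcd q r = Nat.gcd q' r := by
      rw [← h.2] at a2
      have := a1.trans a2.symm
      exact Nat.eq_of_mul_eq_mul_right hf0 this
    have b1 := Nat.mul_div_cancel' (Nat.gcd_dvd_left q r)
    have b2 := Nat.mul_div_cancel' (Nat.gcd_dvd_left q' r)
    rw [← b1, ← b2, h.1, a3]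
  have h1 : ∑ q ∈ Q, 1 / ((max (q / Nat.gcd q r) (r / Nat.gcd q r) : ℕ) : ℝ) ^ 2 =
      ∑ z ∈ Q.image m, 1 / ((max z.1 z.2 : ℕ) : ℝ) ^ 2 := by
    rw [Finset.sum_image hinj]
  rw [h1]
  refine sum_Z y ψ η E hψ hη0 hη _ ?_
  intro z hz
  simp only [Finset.mem_image, hm] at hz
  obtain ⟨q, hq, rfl⟩ := hz
  obtain ⟨hq0, hc⟩ := hQ q hq
  have g1 : 0 < Nat.gcd q r := Nat.gcd_pos_of_pos_right _ hr
  exact ⟨Nat.div_pos (Nat.le_of_dvd hq0 (Nat.gcd_dvd_left q r)) g1,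
    Nat.div_pos (Nat.le_of_dvd hr (Nat.gcd_dvd_right q r)) g1, hc⟩

end Pool.Agent.W9.IK
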