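import Mathlib
import Pool.Agent.W9.IK5

set_option autoImplicit false

open MeasureTheory

namespace Pool.Agent.W9.IK

/-- the point `(a + y) / q` -/
noncomputable def ctr (y : ℝ × ℝ) (q : ℕ) (a : ℤ × ℤ) : ℝ × ℝ :=
  (((a.1 : ℝ) + y.1) / q, ((a.2 : ℝ) + y.2) / q)

/-- a union of boxes -/
noncomputable def G (y : ℝ × ℝ) (ψ : ℕ → ℝ) (A : ℕ → Finset (ℤ × ℤ)) (q : ℕ) : Set (ℝ × ℝ) :=
  ⋃ a ∈ A q, Metric.ball (ctr y q a) (ψ q / q)

lemma vol_ball (c : ℝ × ℝ) (ρ : ℝ) (h : 0 ≤ ρ) : volume.real (Metric.ball c ρ) = 4 * ρ ^ 2 := by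
  have h1 : Metric.ball c ρ = Metric.ball c.1 ρ ×ˢ Metric.ball c.2 ρ := (ball_prod_same c.1 c.2 ρ).symm
  rw [measureReal_def, h1, Measure.volume_eq_prod, Measure.prod_prod, Real.volume_ball,
    Real.volume_ball, ENNReal.toReal_mul, ENNReal.toReal_ofReal (by positivity)]
  ring

lemma vol_inter_ball (c c' : ℝ × ℝ) (ρ ρ' : ℝ) (h : 0 ≤ ρ) (h' : 0 ≤ ρ') :
    volume.real (Metric.ball c ρ ∩ Metric.ball c' ρ') ≤ 4 * (min ρ ρ') ^ 2 := by
  rcases le_total ρ ρ' with hle | hle
  · rw [min_eq_left hle, ← vol_ball c ρ h]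
    exact measureReal_mono Set.inter_subset_left (measure_ball_lt_top.ne)
  · rw [min_eq_right hle, ← vol_ball c' ρ' h']
    exact measureReal_mono Set.inter_subset_right (measure_ball_lt_top.ne)

lemma near_scale {a b y ρq ρr ψq ψr : ℝ} {q r d e f : ℕ} (hq : 0 < q) (hr : 0 < r)
    (hqe : q = d * e) (hrf : r = d * f) (hρq : ρq = ψq / q) (hρr : ρr = ψr / r)
    (h : |(a + y) / q - (b + y) / r| < ρq + ρr) :
    |(f : ℝ) * (a + y) - e * (b + y)| < f * ψq + e * ψr := by
  have hd : 0 < d := Nat.pos_of_ne_zero (by rintro rfl; simp at hqe; omega)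
  have he : 0 < e := Nat.pos_of_ne_zero (by rintro rfl; simp at hqe; omega)
  have hf : 0 < f := Nat.pos_of_ne_zero (by rintro rfl; simp at hrf; omega)
  have hdr : (0 : ℝ) < d := by exact_mod_cast hd
  have her : (0 : ℝ) < e := by exact_mod_cast he
  have hfr : (0 : ℝ) < f := by exact_mod_cast hf
  have e1 : (f : ℝ) * (a + y) - e * (b + y) = (d * e * f) * ((a + y) / q - (b + y) / r) := by
    rw [hqe, hrf]; push_cast; field_simp
  have e2 : (f : ℝ) * ψq + e * ψr = (d * e * f) * (ρq + ρr) := by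
    rw [hρq, hρr, hqe, hrf]; push_cast; field_simp
  rw [e1, e2, abs_mul, abs_of_pos (by positivity : (0:ℝ) < d * e * f)]
  exact mul_lt_mul_of_pos_left h (by positivity)

lemma pair_vol (y : ℝ × ℝ) (ψ : ℕ → ℝ) (η : ℝ) (E : ℕ) (A : ℕ → Finset (ℤ × ℤ))
    (hA : ∀ q, ∀ a ∈ A q, (0 ≤ (a.1 : ℝ) + y.1 ∧ (a.1 : ℝ) + y.1 < q) ∧
      (0 ≤ (a.2 : ℝ) + y.2 ∧ (a.2 : ℝ) + y.2 < q) ∧ ¬ Bad y (ψ q) η E q a)
    (q r : ℕ) (hq : 0 < q) (hr : 0 < r) (hne : q ≠ r) (h0 : 0 ≤ ψ q) (hqr : ψ q ≤ ψ r)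
    (hr0 : 0 < ψ r) (hη0 : 0 < η) (hη : η ≤ 1 / 6) :
    volume.real (G y ψ A q ∩ G y ψ A r) ≤ 16 * (2 + 1 / η) ^ 2 * ((ψ q) ^ 2 * (ψ r) ^ 2) ∨
    (Cond y (ψ r) η E (q / Nat.gcd q r) (r / Nat.gcd q r) ∧
      volume.real (G y ψ A q ∩ G y ψ A r) ≤
        4 * (ψ r) ^ 2 * (1 / ((max (q / Nat.gcd q r) (r / Nat.gcd q r) : ℕ) : ℝ) ^ 2)) := by
  classical
  set d := Nat.gcd q r with hd
  have hd0 : 0 < d := Nat.gcd_pos_of_pos_left _ hq
  set e := q / d with he
  set f := r / d with hf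
  have hqe : q = d * e := (Nat.mul_div_cancel' (Nat.gcd_dvd_left q r)).symm
  have hrf : r = d * f := (Nat.mul_div_cancel' (Nat.gcd_dvd_right q r)).symm
  have he0 : 0 < e := Nat.div_pos (Nat.le_of_dvd hq (Nat.gcd_dvd_left q r)) hd0
  have hf0 : 0 < f := Nat.div_pos (Nat.le_of_dvd hr (Nat.gcd_dvd_right q r)) hd0
  have hef : Nat.Coprime e f := Nat.coprime_div_gcd_div_gcd hd0
  have hnef : e ≠ f := by
    intro h
    apply hne
    rw [hqe, hrf, h]
  have hdr : (0 : ℝ) < d := by exact_mod_cast hd0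
  have her : (0 : ℝ) < e := by exact_mod_cast he0
  have hfr : (0 : ℝ) < f := by exact_mod_cast hf0
  have hqr' : (0 : ℝ) < q := by exact_mod_cast hq
  have hrr' : (0 : ℝ) < r := by exact_mod_cast hr
  have hqer : (q : ℝ) = d * e := by exact_mod_cast hqe
  have hrfr : (r : ℝ) = d * f := by exact_mod_cast hrf
  set ρq := ψ q / q with hρq
  set ρr := ψ r / r with hρr
  have hρq0 : 0 ≤ ρq := by positivity
  have hρr0 : 0 < ρr := by positivity
  set Δ : ℝ := f * ψ q + e * ψ r with hΔ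
  have hΔ0 : 0 < Δ := by positivity
  set N := ((A q) ×ˢ (A r)).filter (fun p =>
    |((p.1.1 : ℝ) + y.1) / q - ((p.2.1 : ℝ) + y.1) / r| < ρq + ρr ∧
    |((p.1.2 : ℝ) + y.2) / q - ((p.2.2 : ℝ) + y.2) / r| < ρq + ρr) with hN
  have hsub : G y ψ A q ∩ G y ψ A r ⊆ ⋃ p ∈ N,
      (Metric.ball (ctr y q p.1) ρq ∩ Metric.ball (ctr y r p.2) ρr) := by
    rintro x ⟨hx1, hx2⟩
    simp only [G, Set.mem_iUnion] at hx1 hx2
    obtain ⟨a, ha, hxa⟩ := hx1
    obtain ⟨b, hb, hxb⟩ := hx2
    simp only [Set.mem_iUnion]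
    refine ⟨(a, b), ?_, hxa, hxb⟩
    have hdist : dist (ctr y q a) (ctr y r b) < ρq + ρr := by
      calc dist (ctr y q a) (ctr y r b) ≤ dist (ctr y q a) x + dist x (ctr y r b) :=
            dist_triangle _ _ _
        _ < ρq + ρr := by
            rw [dist_comm]
            exact add_lt_add hxa hxb
    rw [Prod.dist_eq, max_lt_iff, Real.dist_eq, Real.dist_eq] at hdist
    simp only [hN, Finset.mem_filter, Finset.mem_product]
    exact ⟨⟨ha, hb⟩, hdist.1, hdist.2⟩
  have hvol : volume.real (G y ψ A q ∩ G y ψ A r) ≤ (N.card : ℝ) * (4 * (min ρq ρr) ^ 2) := by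
    have hfin : volume (⋃ p ∈ N,
      (Metric.ball (ctr y q p.1) ρq ∩ Metric.ball (ctr y r p.2) ρr)) ≠ ⊤ := by
      refine (lt_of_le_of_lt (measure_biUnion_finset_le _ _) ?_).ne
      rw [ENNReal.sum_lt_top]
      intro p _
      exact lt_of_le_of_lt (measure_mono Set.inter_subset_left) measure_ball_lt_top
    calc volume.real (G y ψ A q ∩ G y ψ A r) ≤ volume.real (⋃ p ∈ N,
      (Metric.ball (ctr y q p.1) ρq ∩ Metric.ball (ctr y r p.2) ρr)) :=
          measureReal_mono hsub hfin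
      _ ≤ ∑ p ∈ N, volume.real (Metric.ball (ctr y q p.1) ρq ∩ Metric.ball (ctr y r p.2) ρr) :=
          measureReal_biUnion_finset_le _ _
      _ ≤ ∑ p ∈ N, 4 * (min ρq ρr) ^ 2 :=
          Finset.sum_le_sum (fun p _ => vol_inter_ball _ _ _ _ hρq0 hρr0.le)
      _ = (N.card : ℝ) * (4 * (min ρq ρr) ^ 2) := by simp
  -- counting
  set N1 := N.image (fun p => (p.1.1, p.2.1)) with hN1
  set N2 := N.image (fun p => (p.1.2, p.2.2)) with hN2
  have hcardle : N.card ≤ N1.card * N2.card := by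
    rw [← Finset.card_product]
    refine Finset.card_le_card_of_injOn (fun p => ((p.1.1, p.2.1), (p.1.2, p.2.2))) ?_ ?_
    · intro p hp
      simp only [Finset.coe_product, Set.mem_prod, Finset.mem_coe]
      exact ⟨Finset.mem_image_of_mem _ hp, Finset.mem_image_of_mem _ hp⟩
    · intro p _ p' _ h
      have h1 : p.1.1 = p'.1.1 := congrArg (fun z => z.1.1) h
      have h2 : p.2.1 = p'.2.1 := congrArg (fun z => z.1.2) h
      have h3 : p.1.2 = p'.1.2 := congrArg (fun z => z.2.1) h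
      have h4 : p.2.2 = p'.2.2 := congrArg (fun z => z.2.2) h
      exact Prod.ext (Prod.ext h1 h3) (Prod.ext h2 h4)
  have hP1 := near1d_card d e f he0 hef y.1 Δ hΔ0 N1 (by
    intro p hp
    simp only [hN1, Finset.mem_image] at hp
    obtain ⟨⟨a, b⟩, hp, rfl⟩ := hp
    simp only [hN, Finset.mem_filter, Finset.mem_product] at hp
    have h1 := (hA q a hp.1.1).1
    rw [hqer] at h1
    exact ⟨h1.1, h1.2, near_scale hq hr hqe hrf hρq hρr hp.2.1⟩)
  have hP2 := near1d_card d e f he0 hef y.2 Δ hΔ0 N2 (by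
    intro p hp
    simp only [hN2, Finset.mem_image] at hp
    obtain ⟨⟨a, b⟩, hp, rfl⟩ := hp
    simp only [hN, Finset.mem_filter, Finset.mem_product] at hp
    have h1 := (hA q a hp.1.1).2.1
    rw [hqer] at h1
    exact ⟨h1.1, h1.2, near_scale hq hr hqe hrf hρq hρr hp.2.2⟩)
  have hmin0 : 0 ≤ min ρq ρr := le_min hρq0 hρr0.le
  rcases le_or_gt η Δ with hcase | hcase
  · left
    have k1 : (N1.card : ℝ) ≤ d * ((2 + 1 / η) * Δ) := by
      refine hP1.1.trans ?_
      apply mul_le_mul_of_nonneg_left _ hdr.le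
      have : 1 ≤ 1 / η * Δ := by
        rw [one_div, ← div_eq_inv_mul, le_div_iff₀ hη0]; linarith
      linarith
    have k2 : (N2.card : ℝ) ≤ d * ((2 + 1 / η) * Δ) := by
      refine hP2.1.trans ?_
      apply mul_le_mul_of_nonneg_left _ hdr.le
      have : 1 ≤ 1 / η * Δ := by
        rw [one_div, ← div_eq_inv_mul, le_div_iff₀ hη0]; linarith
      linarith
    have k3 : (N.card : ℝ) ≤ (d * ((2 + 1 / η) * Δ)) ^ 2 := by
      have : (N.card : ℝ) ≤ N1.card * N2.card := by exact_mod_cast hcardle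
      refine this.trans ?_
      rw [sq]
      exact mul_le_mul k1 k2 (Nat.cast_nonneg _) ((Nat.cast_nonneg _).trans k1)
    have k4 : d * Δ * min ρq ρr ≤ 2 * (ψ q * ψ r) := by
      have e1 : (d : ℝ) * Δ = q * r * (ρq + ρr) / 1 := by
        rw [hΔ, hρq, hρr, hqer, hrfr]; field_simp
      rw [e1, div_one]
      have e2 : (ρq + ρr) * min ρq ρr ≤ 2 * (ρq * ρr) := by
        rcases le_total ρq ρr with hle | hle
        · rw [min_eq_left hle]; nlinarith
        · rw [min_eq_right hle]; nlinarith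
      have e3 : ψ q * ψ r = (q * r) * (ρq * ρr) := by
        rw [hρq, hρr]; field_simp
      rw [e3]
      calc (q : ℝ) * r * (ρq + ρr) * min ρq ρr = (q * r) * ((ρq + ρr) * min ρq ρr) := by ring
        _ ≤ (q * r) * (2 * (ρq * ρr)) := by gcongr
        _ = 2 * (q * r * (ρq * ρr)) := by ring
    calc volume.real (G y ψ A q ∩ G y ψ A r) ≤ (N.card : ℝ) * (4 * (min ρq ρr) ^ 2) := hvol
      _ ≤ (d * ((2 + 1 / η) * Δ)) ^ 2 * (4 * (min ρq ρr) ^ 2) := by gcongr
      _ = 4 * (2 + 1 / η) ^ 2 * (d * Δ * min ρq ρr) ^ 2 := by ring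
      _ ≤ 4 * (2 + 1 / η) ^ 2 * (2 * (ψ q * ψ r)) ^ 2 := by
          gcongr
      _ = 16 * (2 + 1 / η) ^ 2 * ((ψ q) ^ 2 * (ψ r) ^ 2) := by ring
  · rcases N.eq_empty_or_nonempty with hNe | hNe
    · left
      rw [hNe] at hvol
      simp only [Finset.card_empty, Nat.cast_zero, zero_mul] at hvol
      refine hvol.trans (by positivity)
    · right
      constructor
      · by_cases hE : f < E
        · left; exact hE
        · push Not at hE
          right
          have heη : (e : ℝ) * ψ r < η := by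
            have : 0 ≤ (f : ℝ) * ψ q := by positivity
            linarith
          by_cases hfη : η ≤ f * ψ r
          · left; exact ⟨heη, hfη⟩
          · right
            push Not at hfη
            obtain ⟨⟨a, b⟩, hp⟩ := hNe
            simp only [hN, Finset.mem_filter, Finset.mem_product] at hp
            have hgood := (hA r b hp.1.2).2.2
            rw [hrf] at hgood
            rw [← hrf] at hgood
            have := near_good y (ψ q) (ψ r) η E d e f he0 hf0 hef hnef h0 hqr hr0 hη hcase a b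
              (near_scale hq hr hqe hrf hρq hρr hp.2.1) (near_scale hq hr hqe hrf hρq hρr hp.2.2)
              hE hfη (by rw [← hrf]; exact hgood)
            exact ⟨heη, this.1, this.2⟩
      · have k1 := hP1.2 (by linarith)
        have k2 := hP2.2 (by linarith)
        have k3 : (N.card : ℝ) ≤ d ^ 2 := by
          have : N.card ≤ d ^ 2 := by
            rw [sq]
            exact hcardle.trans (Nat.mul_le_mul k1 k2)
          exact_mod_cast this
        have hM : (0 : ℝ) < ((max e f : ℕ) : ℝ) := by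
          have : 0 < max e f := lt_max_of_lt_left he0
          exact_mod_cast this
        have k4 : d * min ρq ρr ≤ ψ r / ((max e f : ℕ) : ℝ) := by
          rcases le_total e f with hle | hle
          · rw [max_eq_right hle]
            have : d * ρr = ψ r / f := by rw [hρr, hrfr]; field_simp
            rw [← this]
            gcongr
            exact min_le_right _ _
          · rw [max_eq_left hle]
            have : d * ρq = ψ q / e := by rw [hρq, hqer]; field_simp
            calc d * min ρq ρr ≤ d * ρq := by gcongr; exact min_le_left _ _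
              _ = ψ q / e := this
              _ ≤ ψ r / e := by gcongr
        calc volume.real (G y ψ A q ∩ G y ψ A r) ≤ (N.card : ℝ) * (4 * (min ρq ρr) ^ 2) := hvol
          _ ≤ d ^ 2 * (4 * (min ρq ρr) ^ 2) := by gcongr
          _ = 4 * (d * min ρq ρr) ^ 2 := by ring
          _ ≤ 4 * (ψ r / ((max e f : ℕ) : ℝ)) ^ 2 := by
              gcongr
          _ = 4 * (ψ r) ^ 2 * (1 / ((max e f : ℕ) : ℝ) ^ 2) := by
              rw [div_pow]; ring

end Pool.Agent.W9.IK
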