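import Mathlib
import Pool.Agent.W9.IK6

set_option autoImplicit false

open MeasureTheory

namespace Pool.Agent.W9.IK

/-- **Chung–Erdős inequality**. -/
lemma chung_erdos {X : Type*} [MeasurableSpace X] (μ : Measure X) (F : Finset ℕ) (G : ℕ → Set X)
    (hG : ∀ q, MeasurableSet (G q)) (hf : ∀ q, μ (G q) ≠ ⊤) :
    (∑ q ∈ F, μ.real (G q)) ^ 2 ≤
      μ.real (⋃ q ∈ F, G q) * ∑ q ∈ F, ∑ r ∈ F, μ.real (G q ∩ G r) := by
  classical
  set U := ⋃ q ∈ F, G q with hU
  have hUm : MeasurableSet U := Finset.measurableSet_biUnion _ (fun q _ => hG q)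
  have hUf : μ U ≠ ⊤ := by
    refine (lt_of_le_of_lt (measure_biUnion_finset_le _ _) ?_).ne
    rw [ENNReal.sum_lt_top]
    intro p _
    exact (hf p).lt_top
  set I : Set X → X → ℝ := fun s => s.indicator (fun _ => (1 : ℝ)) with hI
  have hint : ∀ s, MeasurableSet s → μ s ≠ ⊤ → Integrable (I s) μ := by
    intro s hs hs'
    exact (integrable_indicator_iff hs).2 (integrableOn_const hs')
  have hval : ∀ s, MeasurableSet s → ∫ x, I s x ∂μ = μ.real s := by
    intro s hs
    simp only [hI]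
    rw [integral_indicator hs]
    simp
  have hinter : ∀ q r, μ (G q ∩ G r) ≠ ⊤ := fun q r =>
    (lt_of_le_of_lt (measure_mono Set.inter_subset_left) (hf q).lt_top).ne
  have key : ∀ t : ℝ, 0 ≤ (∑ q ∈ F, ∑ r ∈ F, μ.real (G q ∩ G r)) -
      2 * t * (∑ q ∈ F, μ.real (G q)) + t ^ 2 * μ.real U := by
    intro t
    have h1 : ∫ x, ((∑ q ∈ F, ∑ r ∈ F, I (G q ∩ G r) x) - 2 * t * (∑ q ∈ F, I (G q) x) +
        t ^ 2 * I U x) ∂μ = (∑ q ∈ F, ∑ r ∈ F, μ.real (G q ∩ G r)) -
      2 * t * (∑ q ∈ F, μ.real (G q)) + t ^ 2 * μ.real U := by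
      have i1 : Integrable (fun x => ∑ q ∈ F, ∑ r ∈ F, I (G q ∩ G r) x) μ :=
        integrable_finsetSum _ (fun q _ => integrable_finsetSum _ (fun r _ =>
          hint _ ((hG q).inter (hG r)) (hinter q r)))
      have i2 : Integrable (fun x => 2 * t * ∑ q ∈ F, I (G q) x) μ :=
        (integrable_finsetSum _ (fun q _ => hint _ (hG q) (hf q))).const_mul _
      have i3 : Integrable (fun x => t ^ 2 * I U x) μ := (hint _ hUm hUf).const_mul _
      have i12 : Integrable (fun x => (∑ q ∈ F, ∑ r ∈ F, I (G q ∩ G r) x) -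
          2 * t * ∑ q ∈ F, I (G q) x) μ := i1.sub i2
      rw [integral_add i12 i3, integral_sub i1 i2, integral_const_mul, integral_const_mul,
        hval _ hUm, integral_finsetSum _ (fun q _ => integrable_finsetSum _ (fun r _ =>
          hint _ ((hG q).inter (hG r)) (hinter q r))),
        integral_finsetSum _ (fun q _ => hint _ (hG q) (hf q))]
      congr 2
      · apply Finset.sum_congr rfl
        intro q _
        rw [integral_finsetSum _ (fun r _ => hint _ ((hG q).inter (hG r)) (hinter q r))]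
        apply Finset.sum_congr rfl
        intro r _
        rw [hval _ ((hG q).inter (hG r))]
      · congr 1
        apply Finset.sum_congr rfl
        intro q _
        rw [hval _ (hG q)]
    rw [← h1]
    apply integral_nonneg
    intro x
    simp only [Pi.zero_apply]
    have e1 : ∑ q ∈ F, ∑ r ∈ F, I (G q ∩ G r) x = (∑ q ∈ F, I (G q) x) ^ 2 := by
      rw [sq, Finset.sum_mul_sum]
      apply Finset.sum_congr rfl
      intro q _
      apply Finset.sum_congr rfl
      intro r _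
      simp only [hI, Set.indicator, Set.mem_inter_iff]
      by_cases h1 : x ∈ G q <;> by_cases h2 : x ∈ G r <;> simp [h1, h2]
    have e2 : ∑ q ∈ F, I (G q) x = (∑ q ∈ F, I (G q) x) * I U x := by
      by_cases h : x ∈ U
      · simp [hI, Set.indicator, h]
      · have : ∑ q ∈ F, I (G q) x = 0 := by
          apply Finset.sum_eq_zero
          intro q hq
          have : x ∉ G q := by
            intro hx
            apply h
            rw [hU]
            exact Set.mem_biUnion hq hx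
          simp [hI, Set.indicator, this]
        rw [this]; simp
    have e3 : I U x ^ 2 = I U x := by
      by_cases h : x ∈ U <;> simp [hI, Set.indicator, h]
    have : (∑ q ∈ F, ∑ r ∈ F, I (G q ∩ G r) x) - 2 * t * (∑ q ∈ F, I (G q) x) +
        t ^ 2 * I U x = ((∑ q ∈ F, I (G q) x) - t * I U x) ^ 2 := by
      rw [e1]
      linear_combination (-2 * t) * e2 - t ^ 2 * e3
    rw [this]
    positivity
  set a := ∑ q ∈ F, μ.real (G q) with ha
  set b := ∑ q ∈ F, ∑ r ∈ F, μ.real (G q ∩ G r) with hb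
  rcases (measureReal_nonneg (μ := μ) (s := U)).eq_or_lt with h0 | h0
  · have : a = 0 := by
      rw [ha]
      apply Finset.sum_eq_zero
      intro q hq
      have h1 : μ.real (G q) ≤ μ.real U :=
        measureReal_mono (by rw [hU]; exact Set.subset_biUnion_of_mem (u := G) hq) hUf
      have := measureReal_nonneg (μ := μ) (s := G q)
      linarith
    rw [this, ← h0]; simp
  · have := key (a / μ.real U)
    have e : b - 2 * (a / μ.real U) * a + (a / μ.real U) ^ 2 * μ.real U =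
        (μ.real U * b - a ^ 2) / μ.real U := by
      field_simp
      ring
    rw [e] at this
    have h2 : 0 ≤ μ.real U * b - a ^ 2 := by
      by_contra h
      push Not at h
      have := div_neg_of_neg_of_pos h h0
      linarith
    linarith

lemma measurable_G (y : ℝ × ℝ) (ψ : ℕ → ℝ) (A : ℕ → Finset (ℤ × ℤ)) (q : ℕ) :
    MeasurableSet (G y ψ A q) :=
  Finset.measurableSet_biUnion _ (fun _ _ => measurableSet_ball)

lemma finite_G (y : ℝ × ℝ) (ψ : ℕ → ℝ) (A : ℕ → Finset (ℤ × ℤ)) (q : ℕ) :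
    volume (G y ψ A q) ≠ ⊤ := by
  refine (lt_of_le_of_lt (measure_biUnion_finset_le _ _) ?_).ne
  rw [ENNReal.sum_lt_top]
  intro p _
  exact measure_ball_lt_top

lemma diag_vol (y : ℝ × ℝ) (ψ : ℕ → ℝ) (A : ℕ → Finset (ℤ × ℤ))
    (hA : ∀ q, ∀ a ∈ A q, (0 ≤ (a.1 : ℝ) + y.1 ∧ (a.1 : ℝ) + y.1 < q) ∧
      (0 ≤ (a.2 : ℝ) + y.2 ∧ (a.2 : ℝ) + y.2 < q)) (q : ℕ) (hq : 0 < q) (h0 : 0 ≤ ψ q) :
    volume.real (G y ψ A q) ≤ 4 * (ψ q) ^ 2 := by
  classical
  have hqr : (0 : ℝ) < q := by exact_mod_cast hq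
  have hc : (A q).card ≤ q * q := by
    have h1 : ((A q).image Prod.fst).card ≤ q := by
      refine block_card 1 q one_pos y.1 _ (fun x => x) ?_ ?_ (fun s _ t _ h => h)
      · intro s hs
        simp only [Finset.mem_image] at hs
        obtain ⟨b, hb, rfl⟩ := hs
        have := (hA q b hb).1
        simpa using this
      · intro s _ t _
        simp
    have h2 : ((A q).image Prod.snd).card ≤ q := by
      refine block_card 1 q one_pos y.2 _ (fun x => x) ?_ ?_ (fun s _ t _ h => h)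
      · intro s hs
        simp only [Finset.mem_image] at hs
        obtain ⟨b, hb, rfl⟩ := hs
        have := (hA q b hb).2
        simpa using this
      · intro s _ t _
        simp
    have hsub : A q ⊆ ((A q).image Prod.fst) ×ˢ ((A q).image Prod.snd) := by
      intro b hb
      rw [Finset.mem_product]
      exact ⟨Finset.mem_image_of_mem _ hb, Finset.mem_image_of_mem _ hb⟩
    refine (Finset.card_le_card hsub).trans ?_
    rw [Finset.card_product]
    exact Nat.mul_le_mul h1 h2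
  calc volume.real (G y ψ A q) ≤ ∑ a ∈ A q, volume.real (Metric.ball (ctr y q a) (ψ q / q)) :=
        measureReal_biUnion_finset_le _ _
    _ = ∑ a ∈ A q, 4 * (ψ q / q) ^ 2 :=
        Finset.sum_congr rfl (fun a _ => vol_ball _ _ (by positivity))
    _ = ((A q).card : ℝ) * (4 * (ψ q / q) ^ 2) := by simp
    _ ≤ ((q : ℝ) * q) * (4 * (ψ q / q) ^ 2) := by
        gcongr
        exact_mod_cast hc
    _ = 4 * (ψ q) ^ 2 := by field_simp

lemma total_sum (y : ℝ × ℝ) (ψ : ℕ → ℝ) (η : ℝ) (E : ℕ) (A : ℕ → Finset (ℤ × ℤ))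
    (hA : ∀ q, ∀ a ∈ A q, (0 ≤ (a.1 : ℝ) + y.1 ∧ (a.1 : ℝ) + y.1 < q) ∧
      (0 ≤ (a.2 : ℝ) + y.2 ∧ (a.2 : ℝ) + y.2 < q) ∧ ¬ Bad y (ψ q) η E q a)
    (hψ : ∀ q, 0 ≤ ψ q) (hη0 : 0 < η) (hη : η ≤ 1 / 6) (F : Finset ℕ) (hF : ∀ q ∈ F, 0 < q) :
    ∑ q ∈ F, ∑ r ∈ F, volume.real (G y ψ A q ∩ G y ψ A r) ≤
      (32 * (2 + 1 / η) ^ 2) * (∑ q ∈ F, (ψ q) ^ 2) ^ 2 +
        (8 * (2 * (E : ℝ) + 28) + 4) * ∑ q ∈ F, (ψ q) ^ 2 := by
  classical
  set S := ∑ q ∈ F, (ψ q) ^ 2 with hS
  set v : ℕ → ℕ → ℝ := fun q r => volume.real (G y ψ A q ∩ G y ψ A r) with hv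
  have hv0 : ∀ q r, 0 ≤ v q r := fun q r => measureReal_nonneg
  have hvs : ∀ q r, v q r = v r q := fun q r => by simp only [hv]; rw [Set.inter_comm]
  set T : ℕ → ℕ → ℝ := fun q r => if q ≠ r ∧ ψ q ≤ ψ r then v q r else 0 with hT
  have hle : ∀ q ∈ F, ∀ r ∈ F, v q r ≤ (if q = r then 4 * (ψ q) ^ 2 else 0) + (T q r + T r q) := by
    intro q hq r _
    have hT0 : ∀ q r, 0 ≤ T q r := by
      intro q r
      simp only [hT]
      split_ifs
      · exact hv0 _ _
      · exact le_rfl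
    by_cases h : q = r
    · subst h
      rw [if_pos rfl]
      have h1 : v q q ≤ 4 * (ψ q) ^ 2 := by
        simp only [hv, Set.inter_self]
        exact diag_vol y ψ A (fun q a ha => ⟨(hA q a ha).1, (hA q a ha).2.1⟩) q (hF q hq) (hψ q)
      linarith [hT0 q q]
    · rw [if_neg h, zero_add]
      rcases le_total (ψ q) (ψ r) with h1 | h1
      · have : T q r = v q r := by simp only [hT]; rw [if_pos ⟨h, h1⟩]
        linarith [hT0 r q]
      · have : T r q = v q r := by
          simp only [hT]; rw [if_pos ⟨fun h' => h h'.symm, h1⟩, hvs]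
        linarith [hT0 q r]
  have hTs : ∀ r ∈ F, ∑ q ∈ F, T q r ≤ 16 * (2 + 1 / η) ^ 2 * (S * (ψ r) ^ 2) +
      4 * (ψ r) ^ 2 * (2 * (E : ℝ) + 28) := by
    intro r hr
    rcases (hψ r).eq_or_lt with h0 | h0
    · have : ∑ q ∈ F, T q r = 0 := by
        apply Finset.sum_eq_zero
        intro q _
        simp only [hT, hv]
        have : G y ψ A r = ∅ := by
          simp only [G, ← h0, zero_div, Metric.ball_zero]
          simp
        rw [this]
        simp
      rw [this, ← h0]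
      simp
    · set Q := F.filter (fun q => q ≠ r ∧ ψ q ≤ ψ r) with hQ
      have e1 : ∑ q ∈ F, T q r = ∑ q ∈ Q, v q r := by
        rw [hQ, Finset.sum_filter]
      rw [e1]
      set Q2 := Q.filter (fun q => ¬ (v q r ≤ 16 * (2 + 1 / η) ^ 2 * ((ψ q) ^ 2 * (ψ r) ^ 2))) with hQ2
      have hpair : ∀ q ∈ Q, v q r ≤ 16 * (2 + 1 / η) ^ 2 * ((ψ q) ^ 2 * (ψ r) ^ 2) ∨
          (Cond y (ψ r) η E (q / Nat.gcd q r) (r / Nat.gcd q r) ∧
            v q r ≤ 4 * (ψ r) ^ 2 *
              (1 / ((max (q / Nat.gcd q r) (r / Nat.gcd q r) : ℕ) : ℝ) ^ 2)) := by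
        intro q hq
        obtain ⟨hq1, hq2, hq3⟩ := Finset.mem_filter.1 hq
        exact pair_vol y ψ η E A hA q r (hF q hq1) (hF r hr) hq2 (hψ q) hq3 h0 hη0 hη
      have e2 : ∑ q ∈ Q, v q r ≤ ∑ q ∈ Q, 16 * (2 + 1 / η) ^ 2 * ((ψ q) ^ 2 * (ψ r) ^ 2) +
          ∑ q ∈ Q2, 4 * (ψ r) ^ 2 *
              (1 / ((max (q / Nat.gcd q r) (r / Nat.gcd q r) : ℕ) : ℝ) ^ 2) := by
        have e3 : ∑ q ∈ Q2, 4 * (ψ r) ^ 2 *
              (1 / ((max (q / Nat.gcd q r) (r / Nat.gcd q r) : ℕ) : ℝ) ^ 2) =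
            ∑ q ∈ Q, if ¬ (v q r ≤ 16 * (2 + 1 / η) ^ 2 * ((ψ q) ^ 2 * (ψ r) ^ 2)) then
              4 * (ψ r) ^ 2 *
              (1 / ((max (q / Nat.gcd q r) (r / Nat.gcd q r) : ℕ) : ℝ) ^ 2) else 0 :=
          Finset.sum_filter _ _
        rw [e3, ← Finset.sum_add_distrib]
        apply Finset.sum_le_sum
        intro q hq
        by_cases h : v q r ≤ 16 * (2 + 1 / η) ^ 2 * ((ψ q) ^ 2 * (ψ r) ^ 2)
        · rw [if_neg (by simpa using h)]
          linarith
        · rw [if_pos h]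
          rcases hpair q hq with h' | h'
          · exact absurd h' h
          · have : 0 ≤ 16 * (2 + 1 / η) ^ 2 * ((ψ q) ^ 2 * (ψ r) ^ 2) := by positivity
            linarith [h'.2]
      refine e2.trans ?_
      apply add_le_add
      · rw [← Finset.mul_sum, ← Finset.sum_mul]
        apply mul_le_mul_of_nonneg_left _ (by positivity)
        apply mul_le_mul_of_nonneg_right _ (by positivity)
        rw [hS]
        exact Finset.sum_le_sum_of_subset_of_nonneg (Finset.filter_subset _ _)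
          (fun _ _ _ => by positivity)
      · rw [← Finset.mul_sum]
        apply mul_le_mul_of_nonneg_left _ (by positivity)
        refine sum_II y (ψ r) η E r (hF r hr) h0 hη0 hη Q2 ?_
        intro q hq
        obtain ⟨hq1, hq2⟩ := Finset.mem_filter.1 hq
        rcases hpair q hq1 with h' | h'
        · exact absurd h' hq2
        · exact ⟨hF q (Finset.mem_filter.1 hq1).1, h'.1⟩
  have hTT : ∑ r ∈ F, ∑ q ∈ F, T q r ≤ 16 * (2 + 1 / η) ^ 2 * S ^ 2 +
      4 * (2 * (E : ℝ) + 28) * S := by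
    refine (Finset.sum_le_sum hTs).trans ?_
    rw [Finset.sum_add_distrib]
    have e1 : ∑ r ∈ F, 16 * (2 + 1 / η) ^ 2 * (S * (ψ r) ^ 2) = 16 * (2 + 1 / η) ^ 2 * S ^ 2 := by
      rw [← Finset.mul_sum, ← Finset.mul_sum, ← hS]; ring
    have e2 : ∑ r ∈ F, 4 * (ψ r) ^ 2 * (2 * (E : ℝ) + 28) = 4 * (2 * (E : ℝ) + 28) * S := by
      rw [← Finset.sum_mul, ← Finset.mul_sum, ← hS]; ring
    rw [e1, e2]
  have hmain : ∑ q ∈ F, ∑ r ∈ F, v q r ≤ ∑ q ∈ F, ∑ r ∈ F,
      ((if q = r then 4 * (ψ q) ^ 2 else 0) + (T q r + T r q)) :=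
    Finset.sum_le_sum (fun q hq => Finset.sum_le_sum (fun r hr => hle q hq r hr))
  have hexp : ∑ q ∈ F, ∑ r ∈ F, ((if q = r then 4 * (ψ q) ^ 2 else 0) + (T q r + T r q)) =
      4 * S + (∑ r ∈ F, ∑ q ∈ F, T q r + ∑ r ∈ F, ∑ q ∈ F, T q r) := by
    simp only [Finset.sum_add_distrib]
    congr 1
    · rw [hS, Finset.mul_sum]
      apply Finset.sum_congr rfl
      intro q hq
      rw [Finset.sum_ite_eq, if_pos hq]
    · congr 1
      exact Finset.sum_comm
  rw [hexp] at hmain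
  linarith

end Pool.Agent.W9.IK
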