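import Mathlib
import Pool.Agent.W9.IK7

set_option autoImplicit false

open MeasureTheory

namespace Pool.Agent.W9.IK

/-- the open unit square -/
def Sq : Set (ℝ × ℝ) := Set.Ioo (0 : ℝ) 1 ×ˢ Set.Ioo (0 : ℝ) 1

lemma isOpen_Sq : IsOpen Sq := isOpen_Ioo.prod isOpen_Ioo

lemma vol_Sq : volume Sq = 1 := by
  rw [Sq, Measure.volume_eq_prod, Measure.prod_prod]; simp

lemma vol_Icc : volume (Set.Icc (0 : ℝ × ℝ) 1) = 1 := by
  have : Set.Icc (0 : ℝ × ℝ) 1 = Set.Icc (0 : ℝ) 1 ×ˢ Set.Icc (0 : ℝ) 1 := by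
    ext x
    simp [Set.mem_Icc, Prod.le_def]
  rw [this, Measure.volume_eq_prod, Measure.prod_prod]; simp

lemma Sq_ae : Sq =ᵐ[volume] Set.Icc (0 : ℝ × ℝ) 1 := by
  refine ae_eq_of_subset_of_measure_ge ?_ ?_ isOpen_Sq.measurableSet.nullMeasurableSet ?_
  · rintro x ⟨h1, h2⟩
    simp only [Set.mem_Icc, Prod.le_def]
    exact ⟨⟨h1.1.le, h2.1.le⟩, ⟨h1.2.le, h2.2.le⟩⟩
  · rw [vol_Icc, vol_Sq]
  · rw [vol_Icc]; simp

/-- the approximation sets -/
def W (y : ℝ × ℝ) (ψ : ℕ → ℝ) (q : ℕ) : Set (ℝ × ℝ) :=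
  {x | 0 < q ∧ ∃ a : ℤ × ℤ, ‖(q : ℝ) • x - ((a.1 : ℝ), (a.2 : ℝ)) - y‖ < ψ q}

lemma isOpen_W (y : ℝ × ℝ) (ψ : ℕ → ℝ) (q : ℕ) : IsOpen (W y ψ q) := by
  have : W y ψ q = ⋃ a : ℤ × ℤ, {x | 0 < q ∧ ‖(q : ℝ) • x - ((a.1 : ℝ), (a.2 : ℝ)) - y‖ < ψ q} := by
    ext x
    simp [W]
  rw [this]
  refine isOpen_iUnion (fun a => ?_)
  by_cases hq : 0 < q
  · simp only [hq, true_and]
    exact isOpen_lt (by fun_prop) continuous_const
  · simp [hq]

/-- the limsup set -/
def L (y : ℝ × ℝ) (ψ : ℕ → ℝ) : Set (ℝ × ℝ) := ⋂ N : ℕ, ⋃ q ∈ Set.Ici N, W y ψ q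

lemma measurable_L (y : ℝ × ℝ) (ψ : ℕ → ℝ) : MeasurableSet (L y ψ) :=
  MeasurableSet.iInter (fun _ => (isOpen_biUnion (fun q _ => isOpen_W y ψ q)).measurableSet)

/-- balls around `(a + y) / q` lie in `W` -/
lemma ball_sub_W (y : ℝ × ℝ) (ψ : ℕ → ℝ) (q : ℕ) (hq : 0 < q) (a : ℤ × ℤ) :
    Metric.ball (ctr y q a) (ψ q / q) ⊆ W y ψ q := by
  intro x hx
  have hqr : (0 : ℝ) < q := by exact_mod_cast hq
  refine ⟨hq, a, ?_⟩
  rw [mem_ball_iff_norm] at hx
  have e : (q : ℝ) • x - ((a.1 : ℝ), (a.2 : ℝ)) - y = (q : ℝ) • (x - ctr y q a) := by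
    ext
    · simp [ctr]; field_simp; ring
    · simp [ctr]; field_simp; ring
  rw [e, norm_smul, Real.norm_of_nonneg hqr.le]
  calc (q : ℝ) * ‖x - ctr y q a‖ < q * (ψ q / q) := mul_lt_mul_of_pos_left hx hqr
    _ = ψ q := by field_simp

open Classical in
/-- all numerators whose cell meets `K` -/
noncomputable def Sfull (y : ℝ × ℝ) (K : Set (ℝ × ℝ)) (q : ℕ) : Finset (ℤ × ℤ) :=
  ((Finset.Ico ⌈-y.1⌉ ⌈(q : ℝ) - y.1⌉) ×ˢ (Finset.Ico ⌈-y.2⌉ ⌈(q : ℝ) - y.2⌉)).filter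
    (fun a => ∃ x ∈ K, |(q : ℝ) * x.1 - y.1 - a.1| ≤ 1 / 2 ∧ |(q : ℝ) * x.2 - y.2 - a.2| ≤ 1 / 2)

lemma mem_Sfull (y : ℝ × ℝ) (K : Set (ℝ × ℝ)) (q : ℕ) (a : ℤ × ℤ) :
    a ∈ Sfull y K q ↔ ((0 ≤ (a.1 : ℝ) + y.1 ∧ (a.1 : ℝ) + y.1 < q) ∧
      (0 ≤ (a.2 : ℝ) + y.2 ∧ (a.2 : ℝ) + y.2 < q)) ∧
      ∃ x ∈ K, |(q : ℝ) * x.1 - y.1 - a.1| ≤ 1 / 2 ∧ |(q : ℝ) * x.2 - y.2 - a.2| ≤ 1 / 2 := by
  classical
  simp only [Sfull, Finset.mem_filter, Finset.mem_product, Finset.mem_Ico, Int.ceil_le, Int.lt_ceil]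
  constructor
  · rintro ⟨⟨⟨h1, h2⟩, h3, h4⟩, h5⟩
    exact ⟨⟨⟨by linarith, by linarith⟩, by linarith, by linarith⟩, h5⟩
  · rintro ⟨⟨⟨h1, h2⟩, h3, h4⟩, h5⟩
    exact ⟨⟨⟨by linarith, by linarith⟩, by linarith, by linarith⟩, h5⟩

/-- the cell estimate: a point of the cell of `a` close to `x` -/
lemma dist_ctr (y : ℝ × ℝ) (q : ℕ) (hq : 0 < q) (a : ℤ × ℤ) (x : ℝ × ℝ)
    (h1 : |(q : ℝ) * x.1 - y.1 - a.1| ≤ 1 / 2) (h2 : |(q : ℝ) * x.2 - y.2 - a.2| ≤ 1 / 2) :
    dist x (ctr y q a) ≤ 1 / (2 * q) := by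
  have hqr : (0 : ℝ) < q := by exact_mod_cast hq
  rw [Prod.dist_eq, max_le_iff, Real.dist_eq, Real.dist_eq]
  constructor
  · have : x.1 - (ctr y q a).1 = ((q : ℝ) * x.1 - y.1 - a.1) / q := by
      simp only [ctr]; field_simp; ring
    rw [this, abs_div, abs_of_pos hqr, div_le_div_iff₀ hqr (by positivity)]
    nlinarith
  · have : x.2 - (ctr y q a).2 = ((q : ℝ) * x.2 - y.2 - a.2) / q := by
      simp only [ctr]; field_simp; ring
    rw [this, abs_div, abs_of_pos hqr, div_le_div_iff₀ hqr (by positivity)]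
    nlinarith

/-- number of cells meeting `K` -/
lemma card_Sfull (y : ℝ × ℝ) (K : Set (ℝ × ℝ)) (q : ℕ) (hq : 0 < q)
    (hsub : ∀ x ∈ K, ∀ z : ℝ × ℝ, dist z x ≤ 1 / q → z ∈ Sq) :
    volume.real K * (q : ℝ) ^ 2 ≤ ((Sfull y K q).card : ℝ) := by
  classical
  have hqr : (0 : ℝ) < q := by exact_mod_cast hq
  have hcov : K ⊆ ⋃ a ∈ Sfull y K q, Metric.closedBall (ctr y q a) (1 / (2 * q)) := by
    intro x hx
    set a : ℤ × ℤ := (round ((q : ℝ) * x.1 - y.1), round ((q : ℝ) * x.2 - y.2)) with ha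
    have h1 : |(q : ℝ) * x.1 - y.1 - a.1| ≤ 1 / 2 := abs_sub_round _
    have h2 : |(q : ℝ) * x.2 - y.2 - a.2| ≤ 1 / 2 := abs_sub_round _
    have hd := dist_ctr y q hq a x h1 h2
    have hS : ctr y q a ∈ Sq := by
      apply hsub x hx
      rw [dist_comm]
      refine hd.trans ?_
      apply one_div_le_one_div_of_le hqr
      linarith
    simp only [Set.mem_iUnion]
    refine ⟨a, ?_, hd⟩
    rw [mem_Sfull]
    obtain ⟨⟨s1, s2⟩, s3, s4⟩ := hS
    simp only [ctr] at s1 s2 s3 s4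
    rw [lt_div_iff₀ hqr] at s1 s3
    rw [div_lt_iff₀ hqr] at s2 s4
    exact ⟨⟨⟨by linarith, by linarith⟩, by linarith, by linarith⟩, x, hx, h1, h2⟩
  have hfin : volume (⋃ a ∈ Sfull y K q, Metric.closedBall (ctr y q a) (1 / (2 * (q : ℝ)))) ≠ ⊤ := by
    refine (lt_of_le_of_lt (measure_biUnion_finset_le _ _) ?_).ne
    rw [ENNReal.sum_lt_top]
    intro p _
    exact measure_closedBall_lt_top
  have h1 : volume.real K ≤ ((Sfull y K q).card : ℝ) * (1 / (q : ℝ) ^ 2) := by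
    calc volume.real K ≤ volume.real
          (⋃ a ∈ Sfull y K q, Metric.closedBall (ctr y q a) (1 / (2 * (q : ℝ)))) :=
          measureReal_mono hcov hfin
      _ ≤ ∑ a ∈ Sfull y K q, volume.real (Metric.closedBall (ctr y q a) (1 / (2 * (q : ℝ)))) :=
          measureReal_biUnion_finset_le _ _
      _ = ∑ a ∈ Sfull y K q, 1 / (q : ℝ) ^ 2 := by
          apply Finset.sum_congr rfl
          intro a _
          have h1 : Metric.closedBall (ctr y q a) (1 / (2 * (q : ℝ))) =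
              Metric.closedBall (ctr y q a).1 (1 / (2 * (q : ℝ))) ×ˢ
              Metric.closedBall (ctr y q a).2 (1 / (2 * (q : ℝ))) :=
            (closedBall_prod_same _ _ _).symm
          rw [measureReal_def, h1, Measure.volume_eq_prod, Measure.prod_prod,
            Real.volume_closedBall, Real.volume_closedBall, ENNReal.toReal_mul,
            ENNReal.toReal_ofReal (by positivity)]
          field_simp
      _ = ((Sfull y K q).card : ℝ) * (1 / (q : ℝ) ^ 2) := by simp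
  have : ((Sfull y K q).card : ℝ) * (1 / (q : ℝ) ^ 2) * (q : ℝ) ^ 2 = (Sfull y K q).card := by
    field_simp
  calc volume.real K * (q : ℝ) ^ 2 ≤ ((Sfull y K q).card : ℝ) * (1 / (q : ℝ) ^ 2) * (q : ℝ) ^ 2 := by
        gcongr
    _ = _ := this

/-- volume of a disjoint union of boxes -/
lemma vol_G (y : ℝ × ℝ) (ψ : ℕ → ℝ) (A : ℕ → Finset (ℤ × ℤ)) (q : ℕ) (hq : 0 < q)
    (h0 : 0 ≤ ψ q) (h1 : ψ q ≤ 1 / 4) :
    volume.real (G y ψ A q) = ((A q).card : ℝ) * (4 * (ψ q / q) ^ 2) := by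
  classical
  have hqr : (0 : ℝ) < q := by exact_mod_cast hq
  rw [G, measureReal_biUnion_finset]
  · rw [Finset.sum_congr rfl (fun a _ => vol_ball (ctr y q a) (ψ q / q) (by positivity))]
    simp
  · intro a _ b _ hab
    apply Metric.ball_disjoint_ball
    have hge : 1 / (q : ℝ) ≤ dist (ctr y q a) (ctr y q b) := by
      rw [Prod.dist_eq, Real.dist_eq, Real.dist_eq]
      have e1 : (ctr y q a).1 - (ctr y q b).1 = ((a.1 - b.1 : ℤ) : ℝ) / q := by
        simp only [ctr]; push_cast; ring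
      have e2 : (ctr y q a).2 - (ctr y q b).2 = ((a.2 - b.2 : ℤ) : ℝ) / q := by
        simp only [ctr]; push_cast; ring
      rw [e1, e2, abs_div, abs_div, abs_of_pos hqr, le_max_iff]
      by_cases h : a.1 = b.1
      · right
        have h2 : a.2 - b.2 ≠ 0 := by
          intro h3
          apply hab
          exact Prod.ext h (by linarith)
        have : (1 : ℝ) ≤ |((a.2 - b.2 : ℤ) : ℝ)| := by exact_mod_cast Int.one_le_abs h2
        gcongr
      · left
        have h2 : a.1 - b.1 ≠ 0 := sub_ne_zero.2 h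
        have : (1 : ℝ) ≤ |((a.1 - b.1 : ℤ) : ℝ)| := by exact_mod_cast Int.one_le_abs h2
        gcongr
    refine le_trans ?_ hge
    rw [← add_div]
    gcongr
    linarith
  · intro a _
    exact measurableSet_ball

theorem core (y : ℝ × ℝ) (ψ : ℕ → ℝ) (hψ0 : ∀ q, 0 ≤ ψ q) (hψ1 : ∀ q, ψ q ≤ 1 / 4)
    (hdiv : ¬ Summable (fun q : ℕ => ψ q ^ 2)) : volume (Sq \ L y ψ) = 0 := by
  classical
  by_contra hpos
  have hpos' : 0 < volume (Sq \ L y ψ) := pos_iff_ne_zero.2 hpos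
  obtain ⟨K, hKsub, hKc, hK0⟩ := (isOpen_Sq.measurableSet.diff (measurable_L y ψ)).exists_lt_isCompact hpos'
  have hKfin : volume K ≠ ⊤ := hKc.measure_lt_top.ne
  set κ := volume.real K with hκ
  have hκ0 : 0 < κ := ENNReal.toReal_pos hK0.ne' hKfin
  set η : ℝ := min (1 / 6) (κ / 192) with hη
  have hη0 : 0 < η := lt_min (by norm_num) (by positivity)
  have hη1 : η ≤ 1 / 6 := min_le_left _ _
  have hη2 : η ≤ κ / 192 := min_le_right _ _
  obtain ⟨E, hE⟩ := exists_nat_gt (72 / κ)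
  have hE0 : (0 : ℝ) < E := lt_trans (by positivity) hE
  have hE1 : 1 ≤ E := by
    have : 0 < E := by exact_mod_cast hE0
    omega
  have hθ : (18 : ℝ) / E + 48 * η ≤ κ / 2 := by
    have : (18 : ℝ) / E ≤ κ / 4 := by
      rw [div_lt_iff₀ hκ0] at hE
      rw [div_le_iff₀ hE0]
      linarith
    linarith
  set C : ℝ := (32 * (2 + 1 / η) ^ 2) + (8 * (2 * (E : ℝ) + 28) + 4) with hC
  have hC0 : 0 < C := by positivity
  set c0 : ℝ := 2 * κ ^ 2 / C with hc0
  have hc00 : 0 < c0 := by positivity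
  -- the open set
  obtain ⟨U0, hU0K, hU0o, hU0v⟩ := Set.exists_isOpen_lt_of_lt K (volume K + ENNReal.ofReal c0)
    (ENNReal.lt_add_right hKfin (by simp [hc00]))
  set U := U0 ∩ Sq with hU
  have hUo : IsOpen U := hU0o.inter isOpen_Sq
  have hKU : K ⊆ U := fun x hx => ⟨hU0K hx, (hKsub hx).1⟩
  have hUv : volume U < volume K + ENNReal.ofReal c0 :=
    lt_of_le_of_lt (measure_mono Set.inter_subset_left) hU0v
  have hUfin : volume U ≠ ⊤ := (lt_of_lt_of_le hUv le_top).ne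
  have hdiff : volume.real (U \ K) < c0 := by
    have h1 : volume (U \ K) < ENNReal.ofReal c0 := by
      rw [measure_sdiff hKU hKc.measurableSet.nullMeasurableSet hKfin]
      refine ENNReal.sub_lt_of_lt_add (measure_mono hKU) ?_
      rw [add_comm]
      exact hUv
    rw [measureReal_def]
    exact (ENNReal.toReal_lt_of_lt_ofReal h1)
  -- thickening
  obtain ⟨δ, hδ0, hδ⟩ := hKc.exists_cthickening_subset_open hUo hKU
  obtain ⟨Q0, hQ0⟩ := exists_nat_gt (1 / δ)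
  have hQ0pos : 0 < Q0 := by
    have : (0 : ℝ) < Q0 := lt_trans (by positivity) hQ0
    exact_mod_cast this
  have hnear : ∀ q : ℕ, Q0 ≤ q → ∀ x ∈ K, ∀ z : ℝ × ℝ, dist z x ≤ 1 / q → z ∈ U := by
    intro q hq x hx z hz
    apply hδ
    apply Metric.mem_cthickening_of_dist_le z x δ K hx
    refine hz.trans ?_
    have hqr : (Q0 : ℝ) ≤ q := by exact_mod_cast hq
    have : (0 : ℝ) < q := lt_of_lt_of_le (by exact_mod_cast hQ0pos) hqr
    rw [div_le_iff₀ this]
    rw [div_lt_iff₀ hδ0] at hQ0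
    nlinarith
  -- the families
  set A : ℕ → Finset (ℤ × ℤ) := fun q => (Sfull y K q).filter (fun a => ¬ Bad y (ψ q) η E q a) with hA
  have hAprop : ∀ q, ∀ a ∈ A q, (0 ≤ (a.1 : ℝ) + y.1 ∧ (a.1 : ℝ) + y.1 < q) ∧
      (0 ≤ (a.2 : ℝ) + y.2 ∧ (a.2 : ℝ) + y.2 < q) ∧ ¬ Bad y (ψ q) η E q a := by
    intro q a ha
    obtain ⟨h1, h2⟩ := Finset.mem_filter.1 ha
    rw [mem_Sfull] at h1
    exact ⟨h1.1.1, h1.1.2, h2⟩
  -- lower bound for the volume
  have hlow : ∀ q, Q0 ≤ q → 2 * κ * (ψ q) ^ 2 ≤ volume.real (G y ψ A q) := by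
    intro q hq
    have hq0 : 0 < q := lt_of_lt_of_le hQ0pos hq
    have hqr : (0 : ℝ) < q := by exact_mod_cast hq0
    rcases (hψ0 q).eq_or_lt with h0 | h0
    · rw [← h0]
      simp only [ne_eq, OfNat.ofNat_ne_zero, not_false_eq_true, zero_pow, mul_zero]
      exact measureReal_nonneg
    · rw [vol_G y ψ A q hq0 (hψ0 q) (hψ1 q)]
      have hfull := card_Sfull y K q hq0 (fun x hx z hz => (hnear q hq x hx z hz).2)
      have hbad := bad_card y (ψ q) η E q hq0 hE1 h0 hη0 hη1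
        ((Sfull y K q).filter (fun a => Bad y (ψ q) η E q a)) (by
          intro b hb
          obtain ⟨h1, h2⟩ := Finset.mem_filter.1 hb
          rw [mem_Sfull] at h1
          exact ⟨h1.1.1, h1.1.2, h2⟩)
      have hsplit : ((Sfull y K q).filter (fun a => Bad y (ψ q) η E q a)).card + (A q).card =
          (Sfull y K q).card := by
        simp only [hA]
        exact Finset.card_filter_add_card_filter_not _
      have hsplit' : (((Sfull y K q).filter (fun a => Bad y (ψ q) η E q a)).card : ℝ) +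
          ((A q).card : ℝ) = ((Sfull y K q).card : ℝ) := by exact_mod_cast hsplit
      have hAc : κ / 2 * (q : ℝ) ^ 2 ≤ ((A q).card : ℝ) := by
        have : (q : ℝ) ^ 2 * ((18 : ℝ) / (E : ℝ) + 48 * η) ≤ (q : ℝ) ^ 2 * (κ / 2) := by gcongr
        nlinarith
      calc 2 * κ * (ψ q) ^ 2 = (κ / 2 * (q : ℝ) ^ 2) * (4 * (ψ q / q) ^ 2) := by
            field_simp
            ring
        _ ≤ ((A q).card : ℝ) * (4 * (ψ q / q) ^ 2) := by gcongr
  -- containment
  have hGU : ∀ q, Q0 ≤ q → G y ψ A q ⊆ U := by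
    intro q hq z hz
    have hq0 : 0 < q := lt_of_lt_of_le hQ0pos hq
    have hqr : (0 : ℝ) < q := by exact_mod_cast hq0
    simp only [G, Set.mem_iUnion] at hz
    obtain ⟨a, ha, hza⟩ := hz
    obtain ⟨h1, h2⟩ := Finset.mem_filter.1 ha
    rw [mem_Sfull] at h1
    obtain ⟨-, x, hx, k1, k2⟩ := h1
    refine hnear q hq x hx z ?_
    have hd := dist_ctr y q hq0 a x k1 k2
    have hd2 : dist z (ctr y q a) < ψ q / q := hza
    calc dist z x ≤ dist z (ctr y q a) + dist (ctr y q a) x := dist_triangle _ _ _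
      _ ≤ ψ q / q + 1 / (2 * q) := by
          rw [dist_comm (ctr y q a) x]; linarith
      _ ≤ (1 / 4) / q + 1 / (2 * q) := by
          have := hψ1 q
          gcongr
      _ ≤ 1 / q := by
          have e : (1 / 4) / (q : ℝ) + 1 / (2 * q) = (3 / 4) * (1 / q) := by field_simp; ring
          rw [e]
          have : 0 < 1 / (q : ℝ) := by positivity
          linarith
  -- main estimate
  have hmain : ∀ N, Q0 ≤ N → c0 ≤ volume.real (⋃ q ∈ Set.Ici N, G y ψ A q) := by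
    intro N hN
    -- choose a finite set
    obtain ⟨M, hM⟩ : ∃ M, 1 ≤ ∑ q ∈ Finset.Ico N M, (ψ q) ^ 2 := by
      by_contra hcon
      push Not at hcon
      apply hdiv
      have hs : Summable (fun q : ℕ => ψ (q + N) ^ 2) := by
        apply summable_of_sum_range_le (c := 1) (fun q => by positivity)
        intro n
        have h1 := hcon (N + n)
        rw [Finset.sum_Ico_eq_sum_range] at h1
        simp only [Nat.add_sub_cancel_left] at h1
        have e : ∑ i ∈ Finset.range n, ψ (i + N) ^ 2 = ∑ i ∈ Finset.range n, ψ (N + i) ^ 2 :=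
          Finset.sum_congr rfl (fun i _ => by rw [add_comm])
        rw [e]
        exact h1.le
      exact (summable_nat_add_iff N).1 hs
    set F := Finset.Ico N M with hF
    have hFq : ∀ q ∈ F, Q0 ≤ q := fun q hq => hN.trans (Finset.mem_Ico.1 hq).1
    set S := ∑ q ∈ F, (ψ q) ^ 2 with hS
    have hce := chung_erdos volume F (G y ψ A) (measurable_G y ψ A) (finite_G y ψ A)
    have hts := total_sum y ψ η E A hAprop hψ0 hη0 hη1 F
      (fun q hq => lt_of_lt_of_le hQ0pos (hFq q hq))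
    rw [← hS] at hts
    have hls : 2 * κ * S ≤ ∑ q ∈ F, volume.real (G y ψ A q) := by
      rw [hS, Finset.mul_sum]
      exact Finset.sum_le_sum (fun q hq => hlow q (hFq q hq))
    have hts2 : ∑ q ∈ F, ∑ r ∈ F, volume.real (G y ψ A q ∩ G y ψ A r) ≤ 2 * C * S ^ 2 := by
      refine hts.trans ?_
      have hSS : S ≤ S ^ 2 := by nlinarith
      have a1 : (0 : ℝ) ≤ 32 * (2 + 1 / η) ^ 2 := by positivity
      have a2 : (0 : ℝ) ≤ 8 * (2 * (E : ℝ) + 28) + 4 := by positivity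
      have a3 : (8 * (2 * (E : ℝ) + 28) + 4) * S ≤ (8 * (2 * (E : ℝ) + 28) + 4) * S ^ 2 := by
        gcongr
      have a4 : 0 ≤ C * S ^ 2 := by positivity
      calc (32 * (2 + 1 / η) ^ 2) * S ^ 2 + (8 * (2 * (E : ℝ) + 28) + 4) * S
          ≤ (32 * (2 + 1 / η) ^ 2) * S ^ 2 + (8 * (2 * (E : ℝ) + 28) + 4) * S ^ 2 := by linarith
        _ = C * S ^ 2 := by rw [hC]; ring
        _ ≤ 2 * C * S ^ 2 := by linarith
    have hsubU : (⋃ q ∈ F, G y ψ A q) ⊆ ⋃ q ∈ Set.Ici N, G y ψ A q := by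
      apply Set.iUnion₂_subset
      intro q hq
      exact Set.subset_biUnion_of_mem (u := fun q => G y ψ A q)
        (show q ∈ Set.Ici N from (Finset.mem_Ico.1 hq).1)
    have hfinU : volume (⋃ q ∈ Set.Ici N, G y ψ A q) ≠ ⊤ := by
      refine (lt_of_le_of_lt (measure_mono ?_) hUfin.lt_top).ne
      apply Set.iUnion₂_subset
      intro q hq
      exact hGU q (hN.trans hq)
    have hv : volume.real (⋃ q ∈ F, G y ψ A q) ≤ volume.real (⋃ q ∈ Set.Ici N, G y ψ A q) :=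
      measureReal_mono hsubU hfinU
    refine le_trans ?_ hv
    have hV0 : 0 ≤ volume.real (⋃ q ∈ F, G y ψ A q) := measureReal_nonneg
    have h1 : (2 * κ * S) ^ 2 ≤ volume.real (⋃ q ∈ F, G y ψ A q) * (2 * C * S ^ 2) := by
      calc (2 * κ * S) ^ 2 ≤ (∑ q ∈ F, volume.real (G y ψ A q)) ^ 2 := by gcongr
        _ ≤ _ := hce
        _ ≤ _ := by gcongr
    have hS0 : 0 < S := by linarith
    have h2 : 2 * κ ^ 2 * (2 * S ^ 2) ≤ volume.real (⋃ q ∈ F, G y ψ A q) * C * (2 * S ^ 2) := by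
      nlinarith
    have h3 : 2 * κ ^ 2 ≤ volume.real (⋃ q ∈ F, G y ψ A q) * C :=
      le_of_mul_le_mul_right h2 (by positivity)
    rw [hc0, div_le_iff₀ hC0]
    exact h3
  -- the limsup set
  have hLU : (⋂ N : ℕ, ⋃ q ∈ Set.Ici (Q0 + N), G y ψ A q) ⊆ U \ K := by
    intro x hx
    simp only [Set.mem_iInter] at hx
    constructor
    · have := hx 0
      simp only [Set.mem_iUnion] at this
      obtain ⟨q, hq, hxq⟩ := this
      exact hGU q (by simpa using hq) hxq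
    · intro hxK
      apply (hKsub hxK).2
      simp only [L, Set.mem_iInter]
      intro N
      have := hx N
      simp only [Set.mem_iUnion] at this ⊢
      obtain ⟨q, hq, hxq⟩ := this
      have hq' : Q0 + N ≤ q := hq
      refine ⟨q, show N ≤ q by omega, ?_⟩
      simp only [G, Set.mem_iUnion] at hxq
      obtain ⟨a, -, hxa⟩ := hxq
      exact ball_sub_W y ψ q (by omega) a hxa
  have hlim := tendsto_measure_iInter_atTop (μ := volume)
    (s := fun N : ℕ => ⋃ q ∈ Set.Ici (Q0 + N), G y ψ A q)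
    (fun N => (MeasurableSet.biUnion (Set.to_countable _)
      (fun q _ => measurable_G y ψ A q)).nullMeasurableSet)
    (by
      intro N M hNM
      apply Set.biUnion_subset_biUnion_left
      intro q hq
      exact le_trans (by omega : Q0 + N ≤ Q0 + M) hq)
    ⟨0, by
      refine (lt_of_le_of_lt (measure_mono ?_) hUfin.lt_top).ne
      apply Set.iUnion₂_subset
      intro q hq
      exact hGU q (by simpa using hq)⟩
  have hge : ENNReal.ofReal c0 ≤ volume (⋂ N : ℕ, ⋃ q ∈ Set.Ici (Q0 + N), G y ψ A q) := by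
    refine ge_of_tendsto hlim (Filter.Eventually.of_forall ?_)
    intro N
    have := hmain (Q0 + N) (by omega)
    rw [measureReal_def] at this
    exact (ENNReal.ofReal_le_iff_le_toReal (by
      refine (lt_of_le_of_lt (measure_mono ?_) hUfin.lt_top).ne
      apply Set.iUnion₂_subset
      intro q hq
      exact hGU q (le_trans (by omega) hq))).2 this
  have h1 : ENNReal.ofReal c0 ≤ volume (U \ K) := hge.trans (measure_mono hLU)
  have h2 : c0 ≤ volume.real (U \ K) := by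
    rw [measureReal_def]
    refine (ENNReal.ofReal_le_iff_le_toReal ?_).1 h1
    exact (lt_of_le_of_lt (measure_mono Set.sdiff_subset) hUfin.lt_top).ne
  linarith

end Pool.Agent.W9.IK
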